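import Pool.Agent.Lib.MP_0a1b52_lc.Defs

/-!
Acceptance by circuits and by random circuits.
-/

set_option autoImplicit false

namespace Pool.Agent.NotLimited

open Pool.Agent.CliqueCircuits

/-- The circuit `C` with the `N` variables `Fin N` accepts the word `x` of length `N`. -/
def Accepts {N s : ℕ} (C : Circuit (Fin N) s) (x : Fin N → Bool) : Prop :=
  ∃ val : Fin s → Prop, C.IsEval (fun i => x i = true) val ∧ val C.out

/-- The probability that `x` is accepted by the random circuit `C ω`, where `ω` is chosen uniformly
from the finite set `Ω`; the circuit `C ω` has `s ω` gates. -/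
noncomputable def acceptProb {Ω : Type} [Fintype Ω] {N : ℕ} {s : Ω → ℕ}
    (C : (ω : Ω) → Circuit (Fin N) (s ω)) (x : Fin N → Bool) : ℝ :=
  (Nat.card {ω : Ω // Accepts (C ω) x} : ℝ) / (Fintype.card Ω : ℝ)

end Pool.Agent.NotLimited
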