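import Pool.Agent.Lib.MP_0a1b52_lc.Markov

/-!
Straight-line derivations of Boolean functions by AND, OR and NOT gates.
-/

set_option autoImplicit false

namespace Pool.Agent.NotLimited

open Pool.Agent.CliqueCircuits

variable {V : Type}

/-- Boolean functions of an assignment of the variables. -/
abbrev BF (V : Type) := (V → Prop) → Prop

/-- `GateFn A e g`: the function `g` is computed by one gate from functions in `A`; `e` is `1` for
a NOT gate and `0` for AND and OR gates. -/
inductive GateFn (A : Set (BF V)) : ℕ → BF V → Prop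
  | and (T : Finset (BF V)) (hT : ∀ g ∈ T, g ∈ A) : GateFn A 0 (fun x => ∀ g ∈ T, g x)
  | or (T : Finset (BF V)) (hT : ∀ g ∈ T, g ∈ A) : GateFn A 0 (fun x => ∃ g ∈ T, g x)
  | not (g : BF V) (hg : g ∈ A) : GateFn A 1 (fun x => ¬ g x)

/-- `Der A k r B`: with at most `k` further gates, at most `r` of them NOT gates, all functions in
`B` can be computed from the functions in `A`. -/
inductive Der : Set (BF V) → ℕ → ℕ → Set (BF V) → Prop
  | base {A B : Set (BF V)} {k r : ℕ} (h : B ⊆ A) : Der A k r B
  | step {A B : Set (BF V)} {k r e : ℕ} {g : BF V} (hg : GateFn A e g)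
      (h : Der (insert g A) k r B) : Der A (k + 1) (r + e) B

theorem GateFn.mono {A A' : Set (BF V)} (hA : A ⊆ A') {e : ℕ} {g : BF V} (h : GateFn A e g) :
    GateFn A' e g := by
  cases h with
  | and T hT => exact GateFn.and T (fun g hg => hA (hT g hg))
  | or T hT => exact GateFn.or T (fun g hg => hA (hT g hg))
  | not g hg => exact GateFn.not g (hA hg)

theorem Der.mono {A A' B : Set (BF V)} {k r : ℕ} (hA : A ⊆ A') (h : Der A k r B) :
    Der A' k r B := by
  induction h generalizing A' with
  | base h => exact Der.base (h.trans hA)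
  | step hg _ ih => exact Der.step (hg.mono hA) (ih (Set.insert_subset_insert hA))

theorem Der.weaken {A B : Set (BF V)} {k r : ℕ} (h : Der A k r B) :
    ∀ {k' r' : ℕ}, k ≤ k' → r ≤ r' → Der A k' r' B := by
  induction h with
  | base h => intro k' r' _ _; exact Der.base h
  | @step A B k r e g hg _ ih =>
    intro k' r' hk hr
    obtain ⟨k'', rfl⟩ : ∃ k'', k' = k'' + 1 := ⟨k' - 1, by omega⟩
    obtain ⟨r'', rfl⟩ : ∃ r'', r' = r'' + e := ⟨r' - e, by omega⟩
    exact Der.step hg (ih (by omega) (by omega))

theorem Der.sub {A B B' : Set (BF V)} {k r : ℕ} (h : Der A k r B) (hB : B' ⊆ B) :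
    Der A k r B' := by
  induction h with
  | base h => exact Der.base (hB.trans h)
  | step hg _ ih => exact Der.step hg (ih hB)

theorem Der.keep {A B : Set (BF V)} {k r : ℕ} (h : Der A k r B) : Der A k r (A ∪ B) := by
  induction h with
  | base h => exact Der.base (Set.union_subset subset_rfl h)
  | step hg _ ih =>
    exact Der.step hg (ih.sub (Set.union_subset_union_left _ (Set.subset_insert _ _)))

theorem Der.trans {A B B' : Set (BF V)} {k r k' r' : ℕ} (h : Der A k r B)
    (h' : Der (A ∪ B) k' r' B') : Der A (k + k') (r + r') B' := by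
  induction h with
  | base h =>
    rw [Set.union_eq_self_of_subset_right h] at h'
    exact h'.weaken (by omega) (by omega)
  | @step A B k r e g hg _ ih =>
    have h1 := ih (h'.mono (Set.union_subset_union_left _ (Set.subset_insert _ _)))
    have h2 := Der.step hg h1
    exact h2.weaken (by omega) (by omega)

theorem Der.union {A B B' : Set (BF V)} {k r k' r' : ℕ} (h : Der A k r B)
    (h' : Der A k' r' B') : Der A (k + k') (r + r') (B ∪ B') := by
  refine h.trans ?_
  exact ((h'.mono Set.subset_union_left).keep).sub
    (Set.union_subset_union_left _ Set.subset_union_right)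

theorem Der.gate {A : Set (BF V)} {e : ℕ} {g : BF V} (h : GateFn A e g) : Der A 1 e {g} := by
  have := Der.step (k := 0) (r := 0) h (Der.base (B := {g}) (by simp))
  simpa using this

theorem Der.tru {A : Set (BF V)} : Der A 1 0 {fun _ => True} := by
  have := Der.gate (GateFn.and (A := A) ∅ (by simp))
  simpa using this

theorem Der.fls {A : Set (BF V)} : Der A 1 0 {fun _ => False} := by
  have := Der.gate (GateFn.or (A := A) ∅ (by simp))
  simpa using this

open Classical in
theorem Der.and2 {A : Set (BF V)} {g h : BF V} (hg : g ∈ A) (hh : h ∈ A) :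
    Der A 1 0 {fun x => g x ∧ h x} := by
  have := Der.gate (GateFn.and (A := A) {g, h} (by
    intro g' hg'
    simp only [Finset.mem_insert, Finset.mem_singleton] at hg'
    rcases hg' with rfl | rfl
    · exact hg
    · exact hh))
  simpa using this

open Classical in
theorem Der.or2 {A : Set (BF V)} {g h : BF V} (hg : g ∈ A) (hh : h ∈ A) :
    Der A 1 0 {fun x => g x ∨ h x} := by
  have := Der.gate (GateFn.or (A := A) {g, h} (by
    intro g' hg'
    simp only [Finset.mem_insert, Finset.mem_singleton] at hg'
    rcases hg' with rfl | rfl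
    · exact hg
    · exact hh))
  simpa using this

theorem Der.not1 {A : Set (BF V)} {g : BF V} (hg : g ∈ A) : Der A 1 1 {fun x => ¬ g x} :=
  Der.gate (GateFn.not g hg)

/-- a finite family of derivations -/
theorem Der.family {A : Set (BF V)} {k r : ℕ} (n : ℕ) (B : ℕ → Set (BF V))
    (h : ∀ i, i < n → Der A k r (B i)) :
    Der A (n * k) (n * r) {g | ∃ i, i < n ∧ g ∈ B i} := by
  induction n with
  | zero => exact Der.base (by rintro g ⟨i, hi, _⟩; omega)
  | succ n ih =>
    have h1 := (ih (fun i hi => h i (by omega))).union (h n (by omega))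
    refine (h1.sub ?_).weaken (by rw [Nat.succ_mul]) (by rw [Nat.succ_mul])
    rintro g ⟨i, hi, hg⟩
    rcases Nat.lt_succ_iff_lt_or_eq.1 hi with h2 | rfl
    · exact Or.inl ⟨i, h2, hg⟩
    · exact Or.inr hg

/-! ### From derivations to circuits -/

section Circ

variable {s : ℕ}

theorem exists_eval' (C : Circuit V s) (x : V → Prop) : ∃ val, C.IsEvalM x val := by
  classical
  let Φ : Fin s → (Fin s → Prop) → Prop := fun i val =>
      match C.kind i with
      | GateKind.and => ∀ w ∈ C.wires i, Sum.elim x val w
      | GateKind.or => ∃ w ∈ C.wires i, Sum.elim x val w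
      | GateKind.not => ∀ w ∈ C.wires i, ¬ Sum.elim x val w
  have hΦ : ∀ i f g, (∀ j, j < i → f j = g j) → Φ i f = Φ i g := by
    intro i f g hfg
    have h : ∀ w ∈ C.wires i, (Sum.elim x f w ↔ Sum.elim x g w) := by
      intro w hw
      cases w with
      | inl v => exact Iff.rfl
      | inr j =>
        have := hfg j (C.acyclic i j hw)
        simp [this]
    simp only [Φ]
    cases hk : C.kind i with
    | and => exact propext (forall₂_congr h)
    | or =>
      refine propext ⟨?_, ?_⟩
      · rintro ⟨w, hw, hv⟩
        exact ⟨w, hw, (h w hw).1 hv⟩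
      · rintro ⟨w, hw, hv⟩
        exact ⟨w, hw, (h w hw).2 hv⟩
    | not => exact propext (forall₂_congr fun w hw => not_congr (h w hw))
  obtain ⟨f, hf⟩ := exists_rec Φ hΦ
  refine ⟨f, fun i => ?_⟩
  have := hf i
  simp only [Φ] at this
  exact iff_of_eq this

/-- the vector of gate values -/
noncomputable def ev (C : Circuit V s) (x : V → Prop) : Fin s → Prop :=
  Classical.choose (exists_eval' C x)

theorem ev_spec (C : Circuit V s) (x : V → Prop) : C.IsEvalM x (ev C x) :=
  Classical.choose_spec (exists_eval' C x)

theorem ev_eq {C : Circuit V s} {x : V → Prop} {val : Fin s → Prop} (h : C.IsEvalM x val) :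
    ev C x = val := (ev_spec C x).unique h

/-- the embedding of the nodes -/
def emb (V : Type) (s : ℕ) : V ⊕ Fin s ↪ V ⊕ Fin (s + 1) where
  toFun := Sum.map id Fin.castSucc
  inj' := Function.Injective.sumMap Function.injective_id (Fin.castSucc_injective s)

/-- Add one more gate, which becomes the output. -/
def extend (C : Circuit V s) (k : GateKind) (W : Finset (V ⊕ Fin s))
    (hW : k = GateKind.not → W.card = 1) : Circuit V (s + 1) where
  kind := Fin.lastCases k C.kind
  wires := Fin.lastCases (W.map (emb V s)) (fun i => (C.wires i).map (emb V s))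
  acyclic := by
    intro i j hij
    induction i using Fin.lastCases with
    | last =>
      simp only [Fin.lastCases_last, Finset.mem_map] at hij
      obtain ⟨w, _, hw⟩ := hij
      cases w with
      | inl v => simp [emb] at hw
      | inr j' =>
        simp only [emb, Function.Embedding.coeFn_mk, Sum.map_inr, Sum.inr.injEq] at hw
        rw [← hw]
        exact Fin.castSucc_lt_last j'
    | cast i =>
      simp only [Fin.lastCases_castSucc, Finset.mem_map] at hij
      obtain ⟨w, hw', hw⟩ := hij
      cases w with
      | inl v => simp [emb] at hw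
      | inr j' =>
        simp only [emb, Function.Embedding.coeFn_mk, Sum.map_inr, Sum.inr.injEq] at hw
        rw [← hw]
        exact Fin.castSucc_lt_castSucc_iff.2 (C.acyclic i j' hw')
  unary := by
    intro i hi
    induction i using Fin.lastCases with
    | last =>
      simp only [Fin.lastCases_last] at hi
      simpa using hW hi
    | cast i =>
      simp only [Fin.lastCases_castSucc] at hi
      simpa using C.unary i hi
  out := Fin.last s

theorem elim_emb (x : V → Prop) (val : Fin (s + 1) → Prop) (w : V ⊕ Fin s) :
    Sum.elim x val (emb V s w) = Sum.elim x (fun i => val i.castSucc) w := by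
  cases w <;> simp [emb]

/-- the value of a gate -/
def gateVal (k : GateKind) (W : Finset (V ⊕ Fin s)) (x : V → Prop) (val : Fin s → Prop) : Prop :=
  match k with
  | GateKind.and => ∀ w ∈ W, Sum.elim x val w
  | GateKind.or => ∃ w ∈ W, Sum.elim x val w
  | GateKind.not => ∀ w ∈ W, ¬ Sum.elim x val w

theorem gateVal_map (k : GateKind) (W : Finset (V ⊕ Fin s)) (x : V → Prop)
    (val : Fin (s + 1) → Prop) :
    gateVal k (W.map (emb V s)) x val = gateVal k W x (fun i => val i.castSucc) := by
  cases k <;> simp only [gateVal, Finset.forall_mem_map, elim_emb]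
  simp only [Finset.mem_map, exists_exists_and_eq_and, elim_emb]

theorem isEvalM_iff_gateVal (C : Circuit V s) (x : V → Prop) (val : Fin s → Prop) :
    C.IsEvalM x val ↔ ∀ i, val i ↔ gateVal (C.kind i) (C.wires i) x val := Iff.rfl

theorem ev_extend (C : Circuit V s) (k : GateKind) (W : Finset (V ⊕ Fin s))
    (hW : k = GateKind.not → W.card = 1) (x : V → Prop) :
    ev (extend C k W hW) x = Fin.lastCases (gateVal k W x (ev C x)) (ev C x) := by
  apply ev_eq
  rw [isEvalM_iff_gateVal]
  intro i
  induction i using Fin.lastCases with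
  | last =>
    simp only [extend, Fin.lastCases_last, gateVal_map, Fin.lastCases_castSucc]
  | cast i =>
    simp only [extend, Fin.lastCases_castSucc, gateVal_map]
    exact (ev_spec C x) i

theorem numNot_eq (C : Circuit V s) [DecidablePred (fun i => C.kind i = GateKind.not)] :
    C.numNot = ∑ i : Fin s, if C.kind i = GateKind.not then 1 else 0 := by
  rw [Circuit.numNot, Nat.card_eq_fintype_card, Fintype.card_subtype, Finset.card_filter]

theorem numNot_extend (C : Circuit V s) (k : GateKind) (W : Finset (V ⊕ Fin s))
    (hW : k = GateKind.not → W.card = 1) (e : ℕ) (he : k = GateKind.not → 1 ≤ e) :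
    (extend C k W hW).numNot ≤ C.numNot + e := by
  classical
  rw [numNot_eq, numNot_eq, Fin.sum_univ_castSucc]
  simp only [extend, Fin.lastCases_castSucc, Fin.lastCases_last]
  by_cases hk : k = GateKind.not
  · rw [if_pos hk]
    have := he hk
    omega
  · rw [if_neg hk]
    omega

/-- every function in `A` is the value of a node of `C` -/
def Realizes (C : Circuit V s) (A : Set (BF V)) : Prop :=
  ∀ g ∈ A, ∃ w : V ⊕ Fin s, ∀ x, Sum.elim x (ev C x) w ↔ g x

theorem Realizes.extend {C : Circuit V s} {A : Set (BF V)} (h : Realizes C A)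
    (k : GateKind) (W : Finset (V ⊕ Fin s)) (hW : k = GateKind.not → W.card = 1) (g : BF V)
    (hg : ∀ x, gateVal k W x (ev C x) ↔ g x) :
    Realizes (NotLimited.extend C k W hW) (insert g A) := by
  intro g' hg'
  rcases Set.mem_insert_iff.1 hg' with rfl | hg'
  · refine ⟨Sum.inr (Fin.last s), fun x => ?_⟩
    rw [ev_extend]
    simp only [Sum.elim_inr, Fin.lastCases_last]
    exact hg x
  · obtain ⟨w, hw⟩ := h g' hg'
    refine ⟨emb V s w, fun x => ?_⟩
    rw [ev_extend, elim_emb]
    simp only [Fin.lastCases_castSucc]
    exact hw x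

theorem Der.realize {A B : Set (BF V)} {k r : ℕ} (h : Der A k r B) :
    ∀ {s : ℕ} (C : Circuit V s), Realizes C A →
      ∃ s', s' ≤ s + k ∧ ∃ C' : Circuit V s', C'.numNot ≤ C.numNot + r ∧ Realizes C' B := by
  classical
  induction h with
  | base h =>
    intro s C hC
    exact ⟨s, by omega, C, by omega, fun g hg => hC g (h hg)⟩
  | @step A B k r e g hg _ ih =>
    intro s C hC
    have : Nonempty (V ⊕ Fin s) := ⟨Sum.inr C.out⟩
    -- one more gate
    have key : ∃ C' : Circuit V (s + 1), C'.numNot ≤ C.numNot + e ∧ Realizes C' (insert g A) := by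
      cases hg with
      | and T hT =>
        choose! φ hφ using hC
        refine ⟨NotLimited.extend C GateKind.and (T.image φ) (by simp),
          numNot_extend C _ _ _ 0 (by simp), Realizes.extend
            (fun g hg => ⟨φ g, hφ g hg⟩) _ _ _ _ ?_⟩
        intro x
        simp only [gateVal, Finset.forall_mem_image]
        exact forall₂_congr fun g hg => hφ g (hT g hg) x
      | or T hT =>
        choose! φ hφ using hC
        refine ⟨NotLimited.extend C GateKind.or (T.image φ) (by simp),
          numNot_extend C _ _ _ 0 (by simp), Realizes.extend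
            (fun g hg => ⟨φ g, hφ g hg⟩) _ _ _ _ ?_⟩
        intro x
        simp only [gateVal, Finset.exists_mem_image]
        constructor
        · rintro ⟨g, hg, hv⟩
          exact ⟨g, hg, (hφ g (hT g hg) x).1 hv⟩
        · rintro ⟨g, hg, hv⟩
          exact ⟨g, hg, (hφ g (hT g hg) x).2 hv⟩
      | not g hg =>
        obtain ⟨w, hw⟩ := hC g hg
        refine ⟨NotLimited.extend C GateKind.not {w} (by simp),
          numNot_extend C _ _ _ 1 (by simp), Realizes.extend hC _ _ _ _ ?_⟩
        intro x
        simp only [gateVal, Finset.mem_singleton, forall_eq]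
        exact not_congr (hw x)
    obtain ⟨C', h1, h2⟩ := key
    obtain ⟨s', hs', C'', h3, h4⟩ := ih C' h2
    exact ⟨s', by omega, C'', by omega, h4⟩

/-- The functions given by the variables. -/
def vars (V : Type) : Set (BF V) := Set.range (fun (v : V) (x : V → Prop) => x v)

/-- the circuit accepts -/
theorem Der.toCircuit {k r : ℕ} {f : BF V} (h : Der (vars V) k r {f}) :
    ∃ s', s' ≤ k + 2 ∧ ∃ C : Circuit V s', C.numNot ≤ r ∧ ∀ x, ev C x C.out ↔ f x := by
  classical
  let C₀ : Circuit V 1 :=
    { kind := fun _ => GateKind.and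
      wires := fun _ => ∅
      acyclic := by simp
      unary := by simp
      out := 0 }
  have h0 : C₀.numNot = 0 := by
    rw [numNot_eq]
    simp [C₀]
  obtain ⟨s', hs', C', h1, h2⟩ := h.realize C₀ (by
    rintro g ⟨v, rfl⟩
    exact ⟨Sum.inl v, fun x => Iff.rfl⟩)
  obtain ⟨w, hw⟩ := h2 f rfl
  refine ⟨s' + 1, by omega, NotLimited.extend C' GateKind.and {w} (by simp), ?_, ?_⟩
  · have := numNot_extend C' GateKind.and {w} (by simp) 0 (by simp)
    omega
  · intro x
    rw [ev_extend]
    have : (NotLimited.extend C' GateKind.and {w} (by simp)).out = Fin.last s' := rfl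
    rw [this]
    simp only [Fin.lastCases_last, gateVal, Finset.mem_singleton, forall_eq]
    exact hw x

end Circ

end Pool.Agent.NotLimited
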