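import Pool.Agent.Lib.MP_b573ec_lc_DR.Main

/-!
Derandomization of circuits with few NOT gates: the final form.
-/

set_option autoImplicit false

namespace Pool.Agent.NotLimited

open Pool.Agent.CliqueCircuits

theorem accepts_iff {N s : ℕ} (C : Circuit (Fin N) s) (x : Fin N → Bool) :
    Accepts C x ↔ ev C (fun i => x i = true) C.out := by
  constructor
  · rintro ⟨val, h1, h2⟩
    rw [ev_eq ((C.isEval_iff _ _).1 h1)]
    exact h2
  · intro h
    exact ⟨_, (C.isEval_iff _ _).2 (ev_spec C _), h⟩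

theorem cntAcc_congr {Ω X X' : Type} (acc : Ω → X → Prop) (acc' : Ω → X' → Prop) (x : X) (x' : X')
    (h : ∀ ω, acc ω x ↔ acc' ω x') (l : List Ω) : cntAcc acc l x = cntAcc acc' l x' := by
  classical
  induction l with
  | nil => rfl
  | cons ω l ih =>
    simp only [cntAcc]
    rw [ih]
    congr 1
    by_cases h1 : acc ω x
    · rw [if_pos h1, if_pos ((h ω).1 h1)]
    · rw [if_neg h1, if_neg (fun h2 => h1 ((h ω).2 h2))]

theorem acceptProb_eq {Ω : Type} [Fintype Ω] {N : ℕ} {s : Ω → ℕ}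
    (C : (ω : Ω) → Circuit (Fin N) (s ω)) (x : Fin N → Bool) :
    acceptProb C x = prob (fun ω x => Accepts (C ω) x) x := by
  classical
  unfold acceptProb prob
  rw [Nat.card_eq_fintype_card, Fintype.card_subtype]

theorem size_bound {N S ρ R k m : ℕ} (hS : 1 ≤ S) (hk : 1 ≤ k)
    (hm : m = 64 * (N + 1) * 4 ^ R * 2 ^ ρ * k ^ 2) :
    m * (2 * S + 4 + ρ) + 2 * (m ^ 2 + m + 2) + 5 * 2 ^ R + 2 ≤ 5 * S * m ^ 2 := by
  have h1 : 1 ≤ 2 ^ ρ := Nat.one_le_two_pow
  have h2 : 1 ≤ 4 ^ R := Nat.one_le_pow _ _ (by norm_num)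
  have h3 : ρ ≤ 2 ^ ρ := Nat.lt_two_pow_self.le
  have h4 : 2 ^ R ≤ 4 ^ R := Nat.pow_le_pow_left (by norm_num) R
  have hk2 : 1 ≤ k ^ 2 := Nat.one_le_pow _ _ hk
  have h5 : 64 * 4 ^ R * 2 ^ ρ ≤ m := by
    rw [hm]
    have h51 : 1 ≤ (N + 1) * k ^ 2 := Nat.mul_pos (by omega) hk2
    have : 64 * 4 ^ R * 2 ^ ρ ≤ ((N + 1) * k ^ 2) * (64 * 4 ^ R * 2 ^ ρ) :=
      Nat.le_mul_of_pos_left _ h51
    calc _ ≤ _ := this
      _ = _ := by ring
  have h6 : 64 * 2 ^ ρ ≤ m := by
    refine le_trans ?_ h5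
    rw [mul_assoc]
    refine Nat.mul_le_mul_left _ ?_
    exact Nat.le_mul_of_pos_left _ (by omega)
  have h7 : 64 * 4 ^ R ≤ m := by
    refine le_trans ?_ h5
    exact Nat.le_mul_of_pos_right _ (by omega)
  have h8 : 64 ≤ m := by omega
  have h9 : ρ ≤ m := by omega
  have h10 : 2 ^ R ≤ m := by omega
  have h11 : m * ρ ≤ m ^ 2 := by rw [sq]; exact Nat.mul_le_mul_left _ h9
  have h12 : 64 * m ≤ m ^ 2 := by rw [sq]; exact Nat.mul_le_mul_right _ h8
  have h13 : m * (2 * S) ≤ S * m ^ 2 := by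
    have : m * (2 * S) = S * (2 * m) := by ring
    rw [this]
    exact Nat.mul_le_mul_left _ (by omega)
  have h14 : m ^ 2 ≤ S * m ^ 2 := Nat.le_mul_of_pos_left _ (by omega)
  have h15 : m * (2 * S + 4 + ρ) = m * (2 * S) + 4 * m + m * ρ := by ring
  have h16 : 5 * S * m ^ 2 = S * m ^ 2 + 4 * (S * m ^ 2) := by ring
  rw [h15, h16]
  omega

theorem derandomize (N S ρ R k : ℕ) (α β : ℝ) (hk : 1 ≤ k)
    (hR : (2 : ℝ) ^ ρ - 1 + 1 / k ≤ (α - β) * 2 ^ R)
    (Ω : Type) [Fintype Ω] [Nonempty Ω] (s : Ω → ℕ) (C : (ω : Ω) → Circuit (Fin N) (s ω))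
    (hs : ∀ ω, s ω ≤ S) (hC : ∀ ω, (C ω).numNot ≤ ρ) (f : (Fin N → Bool) → Prop)
    (h1 : ∀ x, f x → α ≤ acceptProb C x) (h0 : ∀ x, ¬ f x → acceptProb C x ≤ β) :
    ∃ s' : ℕ, s' ≤ 5 * S * (64 * (N + 1) * 4 ^ R * 2 ^ ρ * k ^ 2) ^ 2 ∧
      ∃ D : Circuit (Fin N) s', D.numNot ≤ R ∧ ∀ x, Accepts D x ↔ f x := by
  classical
  have hS : 1 ≤ S := by
    obtain ⟨ω⟩ := ‹Nonempty Ω›
    have e1 := (C ω).out.isLt
    have e2 := hs ω
    omega
  have hk' : (1 : ℝ) ≤ k := by exact_mod_cast hk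
  have hk0 : (0 : ℝ) < k := by linarith
  set m := 64 * (N + 1) * 4 ^ R * 2 ^ ρ * k ^ 2 with hm
  have hsize := size_bound (N := N) (S := S) (ρ := ρ) (R := R) hS hk hm
  -- it is enough to derive the function on propositional assignments
  let f' : BF (Fin N) := fun x => f (fun i => decide (x i))
  have hfin : ∀ k : ℕ, k + 2 ≤ 5 * S * m ^ 2 → Der (vars (Fin N)) k R {f'} →
      ∃ s' : ℕ, s' ≤ 5 * S * m ^ 2 ∧
        ∃ D : Circuit (Fin N) s', D.numNot ≤ R ∧ ∀ x, Accepts D x ↔ f x := by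
    intro k hk hder
    obtain ⟨s', hs', D, hD1, hD2⟩ := hder.toCircuit
    refine ⟨s', by omega, D, hD1, fun x => ?_⟩
    rw [accepts_iff, hD2]
    simp [f']
  by_cases hex1 : ∃ x, f x
  swap
  · refine hfin 1 (by omega) ((Der.fls.sub ?_).weaken le_rfl (by omega))
    rintro g rfl
    rw [Set.mem_singleton_iff]
    funext x
    simp only [f', eq_iff_iff, iff_false]
    exact fun h => hex1 ⟨_, h⟩
  by_cases hex0 : ∃ x, ¬ f x
  swap
  · refine hfin 1 (by omega) ((Der.tru.sub ?_).weaken le_rfl (by omega))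
    rintro g rfl
    rw [Set.mem_singleton_iff]
    funext x
    simp only [f', eq_iff_iff, iff_true]
    by_contra h
    exact hex0 ⟨_, h⟩
  obtain ⟨x₁, hx₁⟩ := hex1
  obtain ⟨x₀, hx₀⟩ := hex0
  have hβ : 0 ≤ β := by
    refine le_trans ?_ (h0 x₀ hx₀)
    rw [acceptProb_eq]
    exact prob_nonneg _ _
  -- the samples
  have hdpos : 1 ≤ 2 ^ (R + 2) * k := Nat.mul_pos (Nat.two_pow_pos _) hk
  obtain ⟨l, hl, hgood⟩ := exists_good_samples (Ω := Ω) (X := Fin N → Bool) N (2 ^ (R + 2) * k)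
    hdpos (by simp) (fun ω x => Accepts (C ω) x)
  set M := l.length with hM
  have hMpos : (0 : ℝ) < M := by
    rw [hl]
    have : 0 < 4 * (N + 1) * (2 ^ (R + 2) * k) ^ 2 := by positivity
    exact_mod_cast this
  push_cast at hgood
  set d : ℝ := 2 ^ (R + 2) * k with hd
  have hd0 : 0 < d := by positivity
  let a : ℕ := ⌈(α - 1 / d) * M⌉₊
  let b : ℕ := ⌊(β + 1 / d) * M⌋₊
  have hcong : ∀ x : Fin N → Prop, cntAcc (fun ω x => ev (C ω) x (C ω).out) l x =
      cntAcc (fun ω x => Accepts (C ω) x) l (fun i => decide (x i)) := by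
    intro x
    apply cntAcc_congr
    intro ω
    rw [accepts_iff]
    simp
  have hder := det_of_list (R := R) s hs C hC l f' a b (by
      intro x hx
      rw [hcong]
      have e1 := h1 _ hx
      rw [acceptProb_eq] at e1
      have e2 := hgood (fun i => decide (x i))
      rw [abs_le] at e2
      refine Nat.ceil_le.2 ?_
      have e3 := mul_le_mul_of_nonneg_right e1 hMpos.le
      have e4 : (α - 1 / d) * M = α * M - M / d := by ring
      rw [e4]
      linarith [e2.1]) (by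
      intro x hx
      rw [hcong]
      have e1 := h0 _ hx
      rw [acceptProb_eq] at e1
      have e2 := hgood (fun i => decide (x i))
      rw [abs_le] at e2
      refine Nat.le_floor ?_
      have e3 := mul_le_mul_of_nonneg_right e1 hMpos.le
      have e4 : (β + 1 / d) * M = β * M + M / d := by ring
      rw [e4]
      linarith [e2.2]) (by
      have ha : (α - 1 / d) * M ≤ a := Nat.le_ceil _
      have hb : (b : ℝ) ≤ (β + 1 / d) * M := Nat.floor_le (by positivity)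
      have hpow : (2 : ℝ) ^ R * (1 / d) = 1 / (4 * k) := by
        rw [hd, pow_add]
        field_simp
        norm_num
      have hRpos : (0 : ℝ) < 2 ^ R := by positivity
      have key : ((M : ℝ)) * (2 ^ ρ - 1) < 2 ^ R * ((a : ℝ) - b) := by
        have e1 : (2 : ℝ) ^ R * ((a : ℝ) - b) ≥ 2 ^ R * (((α - 1 / d) * M) -
            ((β + 1 / d) * M)) := by
          apply mul_le_mul_of_nonneg_left _ hRpos.le
          linarith
        have e2 : (2 : ℝ) ^ R * (((α - 1 / d) * M) -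
            ((β + 1 / d) * M)) = ((α - β) * 2 ^ R) * M -
            2 * (2 ^ R * (1 / d)) * M := by ring
        rw [e2, hpow] at e1
        have e3 := mul_le_mul_of_nonneg_right hR hMpos.le
        have e4 : 0 < (1 / (k : ℝ)) * M := by positivity
        have e5 : (1 / (4 * k) : ℝ) = (1 / 4) * (1 / k) := by
          field_simp
        rw [e5] at e1
        nlinarith
      have hpρ : 1 ≤ 2 ^ ρ := Nat.one_le_two_pow
      have hba : b ≤ a := by
        by_contra hcon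
        have e1 : (a : ℝ) - b ≤ 0 := by
          have : (a : ℝ) ≤ b := by exact_mod_cast (not_le.1 hcon).le
          linarith
        have e2 : (2 : ℝ) ^ R * ((a : ℝ) - b) ≤ 0 := mul_nonpos_of_nonneg_of_nonpos hRpos.le e1
        have e3 : (0 : ℝ) ≤ (M : ℝ) * (2 ^ ρ - 1) := by
          have : (1 : ℝ) ≤ 2 ^ ρ := by exact_mod_cast hpρ
          apply mul_nonneg hMpos.le
          linarith
        linarith
      rw [← Nat.cast_lt (α := ℝ)]
      push_cast [Nat.cast_sub hpρ, Nat.cast_sub hba]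
      exact key)
  have hlm : l.length * 2 ^ ρ = m := by
    have : (2 : ℕ) ^ (R + 2) * 2 ^ (R + 2) = 16 * 4 ^ R := by
      rw [← mul_pow, pow_add]
      norm_num
      ring
    calc l.length * 2 ^ ρ = 4 * (N + 1) * (2 ^ (R + 2) * k) ^ 2 * 2 ^ ρ := by rw [← hM, hl]
      _ = 4 * (N + 1) * (2 ^ (R + 2) * 2 ^ (R + 2)) * k ^ 2 * 2 ^ ρ := by ring
      _ = m := by rw [this, hm]; ring
  rw [← hM] at hlm
  rw [hlm] at hder
  exact hfin _ (by
    have : m * (2 * S + 4 + ρ) + 2 * (m ^ 2 + m + 2) + 5 * 2 ^ R + 2 ≤ 5 * S * m ^ 2 := hsize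
    exact this) hder

end Pool.Agent.NotLimited
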