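import Pool.Agent.Lib.MP_b573ec_lc_DR.Sep

/-!
How well can circuits with few NOT gates be simulated by random circuits with fewer NOT gates?
-/

set_option autoImplicit false

namespace Pool.Agent.NotLimited

open Pool.Agent.CliqueCircuits

/-- A circuit with at most `r` NOT gates has fewer than `2 ^ r` descents along a chain of inputs. -/
theorem descents_lt {V : Type} {s r : ℕ} {C : Circuit V s} (hr : C.numNot ≤ r)
    (X : ℕ → V → Prop) (hX : ∀ i j, i ≤ j → ∀ v, X i v → X j v) (J : Finset ℕ)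
    (hJ : ∀ j ∈ J, ev C (X (2 * j)) C.out ∧ ¬ ev C (X (2 * j + 1)) C.out) :
    J.card < 2 ^ r := by
  by_contra hcon
  push Not at hcon
  let e : Fin (2 ^ r) ↪o ℕ := J.orderEmbOfCardLe hcon
  have hmem : ∀ j, e j ∈ J := fun j => J.orderEmbOfCardLe_mem hcon j
  have hsup : ∀ j ∈ J, j ≤ J.sup id := fun j hj => Finset.le_sup (f := id) hj
  let t : ℕ → ℕ := fun j => if h : j < 2 ^ r then 2 * e ⟨j, h⟩ else 2 * J.sup id + 2
  have ht1 : ∀ j (h : j < 2 ^ r), t j = 2 * e ⟨j, h⟩ := by
    intro j h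
    simp only [t]
    rw [dif_pos h]
  have ht2 : ∀ j, ¬ j < 2 ^ r → t j = 2 * J.sup id + 2 := by
    intro j h
    simp only [t]
    rw [dif_neg h]
  have hstep : ∀ j, j < 2 ^ r → t j + 2 ≤ t (j + 1) := by
    intro j hj
    rw [ht1 j hj]
    by_cases h1 : j + 1 < 2 ^ r
    · rw [ht1 _ h1]
      have : e ⟨j, hj⟩ < e ⟨j + 1, h1⟩ := e.strictMono (by
        rw [Fin.mk_lt_mk]
        omega)
      omega
    · rw [ht2 _ h1]
      have := hsup _ (hmem ⟨j, hj⟩)
      omega
  have hstep' : ∀ j, t j ≤ t (j + 1) := by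
    intro j
    by_cases hj : j < 2 ^ r
    · have := hstep j hj
      omega
    · rw [ht2 j hj, ht2 (j + 1) (by omega)]
  obtain ⟨j, hj, hsame⟩ := markov hr (fun j => X (t j)) (fun j => ev C (X (t j)))
    (fun j => ev_spec C _) (fun j => hX _ _ (hstep' j))
  have h1 := hJ _ (hmem ⟨j, hj⟩)
  rw [← ht1 j hj] at h1
  refine h1.2 (sandwich (ev_spec C (X (t j))) (ev_spec C (X (t j + 1)))
    (ev_spec C (X (t (j + 1)))) (hX _ _ (by omega)) (hX _ _ ?_) hsame C.out h1.1)
  have := hstep j hj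
  omega

/-- The function with ones at the weights `0, 2, …, 2 ^ (R + 1) - 4` has circuits with `R` NOT
gates, but random circuits with `ρ` NOT gates compute it only with a gap of at most
`(2 ^ ρ - 1) / (2 ^ R - 1)`. -/
theorem gap_bound {N R : ℕ} (hR : 1 ≤ R) (hN : 2 ^ (R + 1) ≤ N + 1) :
    ∃ f : (Fin N → Bool) → Prop,
      (∃ s : ℕ, s ≤ 4 * N ^ 2 ∧ ∃ D : Circuit (Fin N) s, D.numNot ≤ R ∧ ∀ x, Accepts D x ↔ f x) ∧
      ∀ (ρ : ℕ) (α β : ℝ) (Ω : Type) [Fintype Ω] [Nonempty Ω] (s : Ω → ℕ)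
        (C : (ω : Ω) → Circuit (Fin N) (s ω)), (∀ ω, (C ω).numNot ≤ ρ) →
        (∀ x, f x → α ≤ acceptProb C x) → (∀ x, ¬ f x → acceptProb C x ≤ β) →
        (α - β) * (2 ^ R - 1) ≤ 2 ^ ρ - 1 := by
  classical
  have h1R : 1 ≤ 2 ^ R := Nat.one_le_two_pow
  have h2R : 2 ^ (R + 1) = 2 * 2 ^ R := by rw [pow_succ]; ring
  refine ⟨fun x => ∃ j ∈ Finset.range (2 ^ R - 1), weight x = 2 * j, ?_, ?_⟩
  · obtain ⟨s, hs, C, hC, hev⟩ := (der_levels (N := N) (ρ := R) (Finset.range (2 ^ R - 1))
      (by rw [Finset.card_range]; omega)).toCircuit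
    refine ⟨s, ?_, C, hC, ?_⟩
    · have h3 : 2 ≤ 2 ^ R := by
        calc 2 = 2 ^ 1 := by norm_num
          _ ≤ 2 ^ R := Nat.pow_le_pow_right (by norm_num) hR
      have h4 : 3 ≤ N := by omega
      nlinarith
    · intro x
      rw [accepts_iff, hev]
      have : (fun i => @decide (x i = true) (Classical.propDecidable _)) = x := by
        funext i
        cases h : x i <;> simp
      rw [this]
  · intro ρ α β Ω _ _ s C hC h1 h0
    let X : ℕ → Fin N → Prop := fun j i => i.val < j
    let Y : ℕ → Fin N → Bool := fun j i => decide (i.val < j)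
    have hXY : ∀ j, (fun i : Fin N => Y j i = true) = X j := by
      intro j
      funext i
      simp [X, Y]
    have hX : ∀ i j, i ≤ j → ∀ v, X i v → X j v := by
      intro i j hij v hv
      simp only [X] at hv ⊢
      omega
    have hf : ∀ j ∈ Finset.range (2 ^ R - 1), α ≤ acceptProb C (Y (2 * j)) ∧
        acceptProb C (Y (2 * j + 1)) ≤ β := by
      intro j hj
      have hj' := Finset.mem_range.1 hj
      constructor
      · exact h1 _ ⟨j, hj, weight_prefix (by omega)⟩
      · apply h0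
        rintro ⟨j', _, hj''⟩
        rw [weight_prefix (by omega)] at hj''
        omega
    have hprob : ∀ x : Fin N → Bool, acceptProb C x =
        (∑ ω : Ω, (if Accepts (C ω) x then (1 : ℝ) else 0)) / Fintype.card Ω := by
      intro x
      unfold acceptProb
      rw [Nat.card_eq_fintype_card, Fintype.card_subtype, Finset.card_filter]
      push_cast
      rfl
    have hpos : (0 : ℝ) < Fintype.card Ω := by
      exact_mod_cast Fintype.card_pos
    have hpρ : (1 : ℕ) ≤ 2 ^ ρ := Nat.one_le_two_pow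
    -- for each circuit
    have hω : ∀ ω : Ω, ∑ j ∈ Finset.range (2 ^ R - 1),
        ((if Accepts (C ω) (Y (2 * j)) then (1 : ℝ) else 0) -
          (if Accepts (C ω) (Y (2 * j + 1)) then (1 : ℝ) else 0)) ≤ 2 ^ ρ - 1 := by
      intro ω
      have hcard := descents_lt (hC ω) X hX ((Finset.range (2 ^ R - 1)).filter (fun j =>
        Accepts (C ω) (Y (2 * j)) ∧ ¬ Accepts (C ω) (Y (2 * j + 1)))) (by
          intro j hj
          have h := (Finset.mem_filter.1 hj).2
          rw [accepts_iff, accepts_iff, hXY, hXY] at h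
          exact h)
      have h2 : ∑ j ∈ Finset.range (2 ^ R - 1),
          ((if Accepts (C ω) (Y (2 * j)) then (1 : ℝ) else 0) -
            (if Accepts (C ω) (Y (2 * j + 1)) then (1 : ℝ) else 0)) ≤
          ∑ j ∈ Finset.range (2 ^ R - 1), (if (Accepts (C ω) (Y (2 * j)) ∧
            ¬ Accepts (C ω) (Y (2 * j + 1))) then (1 : ℝ) else 0) := by
        refine Finset.sum_le_sum fun j _ => ?_
        by_cases ha : Accepts (C ω) (Y (2 * j)) <;>
          by_cases hb : Accepts (C ω) (Y (2 * j + 1)) <;> simp [ha, hb]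
      refine h2.trans ?_
      rw [← Finset.sum_filter, Finset.sum_const, nsmul_eq_mul, mul_one]
      have h3 : (((Finset.range (2 ^ R - 1)).filter (fun j =>
        Accepts (C ω) (Y (2 * j)) ∧ ¬ Accepts (C ω) (Y (2 * j + 1)))).card : ℝ) + 1 ≤
          2 ^ ρ := by
        exact_mod_cast hcard
      linarith
    have hsum : ∑ j ∈ Finset.range (2 ^ R - 1), (acceptProb C (Y (2 * j)) -
        acceptProb C (Y (2 * j + 1))) ≤ 2 ^ ρ - 1 := by
      have h4 : ∑ j ∈ Finset.range (2 ^ R - 1), (acceptProb C (Y (2 * j)) -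
          acceptProb C (Y (2 * j + 1))) = (∑ ω : Ω, ∑ j ∈ Finset.range (2 ^ R - 1),
        ((if Accepts (C ω) (Y (2 * j)) then (1 : ℝ) else 0) -
          (if Accepts (C ω) (Y (2 * j + 1)) then (1 : ℝ) else 0))) / Fintype.card Ω := by
        rw [Finset.sum_comm, Finset.sum_div]
        refine Finset.sum_congr rfl fun j _ => ?_
        rw [hprob, hprob, ← sub_div, ← Finset.sum_sub_distrib]
      rw [h4, div_le_iff₀ hpos]
      calc _ ≤ ∑ _ω : Ω, ((2 : ℝ) ^ ρ - 1) := Finset.sum_le_sum fun ω _ => hω ω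
        _ = (2 ^ ρ - 1) * Fintype.card Ω := by
          rw [Finset.sum_const, Finset.card_univ, nsmul_eq_mul]
          ring
    have hlow : ∑ _j ∈ Finset.range (2 ^ R - 1), (α - β) ≤
        ∑ j ∈ Finset.range (2 ^ R - 1), (acceptProb C (Y (2 * j)) -
        acceptProb C (Y (2 * j + 1))) := by
      refine Finset.sum_le_sum fun j hj => ?_
      have := hf j hj
      linarith
    rw [Finset.sum_const, Finset.card_range, nsmul_eq_mul] at hlow
    have h5 : ((2 ^ R - 1 : ℕ) : ℝ) = 2 ^ R - 1 := by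
      rw [Nat.cast_sub h1R]
      push_cast
      rfl
    rw [h5] at hlow
    linarith

end Pool.Agent.NotLimited
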