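import Mathlib

/-!
A list of samples which approximates all acceptance probabilities.
-/

set_option autoImplicit false

namespace Pool.Agent.NotLimited

open Finset

variable {Ω X : Type} [Fintype Ω] [Nonempty Ω] [Fintype X]

open Classical in
/-- the number of samples in the list which accept `x` -/
noncomputable def cntAcc (acc : Ω → X → Prop) (l : List Ω) (x : X) : ℕ :=
  match l with
  | [] => 0
  | ω :: l => (if acc ω x then 1 else 0) + cntAcc acc l x

open Classical in
/-- the probability of acceptance -/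
noncomputable def prob (acc : Ω → X → Prop) (x : X) : ℝ :=
  ((univ.filter (fun ω => acc ω x)).card : ℝ) / (Fintype.card Ω : ℝ)

omit [Fintype X] [Nonempty Ω] in
theorem prob_nonneg (acc : Ω → X → Prop) (x : X) : 0 ≤ prob acc x := by
  unfold prob; positivity

omit [Fintype X] in
theorem prob_le_one (acc : Ω → X → Prop) (x : X) : prob acc x ≤ 1 := by
  classical
  unfold prob
  have : (0 : ℝ) < Fintype.card Ω := by exact_mod_cast Fintype.card_pos
  rw [div_le_one this]
  exact_mod_cast Finset.card_le_univ _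

open Classical in
omit [Fintype X] in
theorem sum_exp_le (acc : Ω → X → Prop) (x : X) (h : ℝ) (hh : |h| ≤ 1) :
    ∑ ω, Real.exp (h * ((if acc ω x then 1 else 0) - prob acc x)) ≤
      Fintype.card Ω * Real.exp (h ^ 2) := by
  have hcard : (0 : ℝ) < Fintype.card Ω := by exact_mod_cast Fintype.card_pos
  set p := prob acc x with hp
  have hp0 := prob_nonneg acc x
  have hp1 := prob_le_one acc x
  have h1 : ∀ ω, Real.exp (h * ((if acc ω x then 1 else 0) - p)) ≤
      1 + h * ((if acc ω x then 1 else 0) - p) + h ^ 2 := by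
    intro ω
    have hy : |(if acc ω x then (1 : ℝ) else 0) - p| ≤ 1 := by
      rw [abs_le]
      split_ifs <;> constructor <;> linarith
    have hle : |h * ((if acc ω x then (1 : ℝ) else 0) - p)| ≤ 1 := by
      rw [abs_mul]
      exact mul_le_one₀ hh (abs_nonneg _) hy
    have h2 := Real.abs_exp_sub_one_sub_id_le hle
    have h3 := (abs_le.1 h2).2
    have h4 : (h * ((if acc ω x then (1 : ℝ) else 0) - p)) ^ 2 ≤ h ^ 2 := by
      rw [mul_pow]
      have : ((if acc ω x then (1 : ℝ) else 0) - p) ^ 2 ≤ 1 := by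
        rw [← sq_abs]
        exact pow_le_one₀ (abs_nonneg _) hy
      nlinarith [sq_nonneg h]
    linarith
  have h2 : ∑ ω, (1 + h * ((if acc ω x then (1 : ℝ) else 0) - p) + h ^ 2) =
      Fintype.card Ω * (1 + h ^ 2) := by
    have h3 : ∑ ω : Ω, (if acc ω x then (1 : ℝ) else 0) = Fintype.card Ω * p := by
      rw [Finset.sum_boole, hp, prob]
      field_simp
    rw [Finset.sum_add_distrib, Finset.sum_add_distrib, ← Finset.mul_sum,
      Finset.sum_sub_distrib, h3]
    simp only [Finset.sum_const, Finset.card_univ, nsmul_eq_mul, mul_one]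
    ring
  calc ∑ ω, Real.exp (h * ((if acc ω x then 1 else 0) - p))
      ≤ ∑ ω, (1 + h * ((if acc ω x then (1 : ℝ) else 0) - p) + h ^ 2) :=
        Finset.sum_le_sum fun ω _ => h1 ω
    _ = Fintype.card Ω * (1 + h ^ 2) := h2
    _ ≤ Fintype.card Ω * Real.exp (h ^ 2) := by
        refine mul_le_mul_of_nonneg_left ?_ hcard.le
        have := Real.add_one_le_exp (h ^ 2)
        linarith

theorem exists_samples (acc : Ω → X → Prop) (h : ℝ) (h0 : 0 < h) (h1 : h ≤ 1) (M : ℕ) :
    ∃ l : List Ω, l.length = M ∧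
      ∑ x, (Real.exp (h * (cntAcc acc l x - prob acc x * M)) +
        Real.exp (-h * (cntAcc acc l x - prob acc x * M))) ≤
      2 * Fintype.card X * Real.exp (h ^ 2 * M) := by
  classical
  have hcard : (0 : ℝ) < Fintype.card Ω := by exact_mod_cast Fintype.card_pos
  induction M with
  | zero =>
    refine ⟨[], rfl, ?_⟩
    simp [cntAcc]
    linarith
  | succ M ih =>
    obtain ⟨l, hl, hΦ⟩ := ih
    set Φ := ∑ x, (Real.exp (h * (cntAcc acc l x - prob acc x * M)) +
        Real.exp (-h * (cntAcc acc l x - prob acc x * M))) with hΦdef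
    have hstep : ∑ ω : Ω, ∑ x, (Real.exp (h * (cntAcc acc (ω :: l) x - prob acc x * (M + 1 : ℕ))) +
        Real.exp (-h * (cntAcc acc (ω :: l) x - prob acc x * (M + 1 : ℕ)))) ≤
        ∑ ω : Ω, Real.exp (h ^ 2) * Φ := by
      rw [Finset.sum_comm, Finset.sum_const, Finset.card_univ, nsmul_eq_mul, hΦdef,
        Finset.mul_sum, Finset.mul_sum]
      refine Finset.sum_le_sum fun x _ => ?_
      have e1 : ∀ (k : ℝ) (ω : Ω), Real.exp (k * (cntAcc acc (ω :: l) x -
          prob acc x * (M + 1 : ℕ))) = Real.exp (k * (cntAcc acc l x - prob acc x * M)) *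
          Real.exp (k * ((if acc ω x then 1 else 0) - prob acc x)) := by
        intro k ω
        rw [← Real.exp_add]
        congr 1
        simp only [cntAcc]
        push_cast
        ring
      simp only [e1]
      rw [Finset.sum_add_distrib, ← Finset.mul_sum, ← Finset.mul_sum]
      have e2 := sum_exp_le acc x h (by rw [abs_of_pos h0]; exact h1)
      have e3 := sum_exp_le acc x (-h) (by rw [abs_neg, abs_of_pos h0]; exact h1)
      rw [neg_sq] at e3
      have e4 := mul_le_mul_of_nonneg_left e2
        (Real.exp_pos (h * (cntAcc acc l x - prob acc x * M))).le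
      have e5 := mul_le_mul_of_nonneg_left e3
        (Real.exp_pos (-h * (cntAcc acc l x - prob acc x * M))).le
      linarith
    obtain ⟨ω, _, hω⟩ := Finset.exists_le_of_sum_le Finset.univ_nonempty hstep
    refine ⟨ω :: l, by simp [hl], hω.trans ?_⟩
    have e6 : Real.exp (h ^ 2 * (M + 1 : ℕ)) = Real.exp (h ^ 2) * Real.exp (h ^ 2 * M) := by
      rw [← Real.exp_add]
      congr 1
      push_cast
      ring
    rw [e6]
    have e7 := mul_le_mul_of_nonneg_left hΦ (Real.exp_pos (h ^ 2)).le
    linarith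

/-- `4 (N + 1) d ^ 2` samples give all acceptance probabilities up to `1 / d`. -/
theorem exists_good_samples (N d : ℕ) (hd : 1 ≤ d) (hX : Fintype.card X = 2 ^ N)
    (acc : Ω → X → Prop) :
    ∃ l : List Ω, l.length = 4 * (N + 1) * d ^ 2 ∧
      ∀ x, |(cntAcc acc l x : ℝ) - prob acc x * l.length| ≤ l.length / d := by
  set M := 4 * (N + 1) * d ^ 2 with hM
  have hd' : (1 : ℝ) ≤ d := by exact_mod_cast hd
  have hd0 : (0 : ℝ) < d := by linarith
  set h : ℝ := 1 / (2 * d) with hh
  have hpow : (0 : ℝ) < 2 * d := by positivity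
  have h0 : 0 < h := by positivity
  have h1 : h ≤ 1 := by
    rw [hh, div_le_one hpow]
    linarith
  obtain ⟨l, hl, hsum⟩ := exists_samples acc h h0 h1 M
  refine ⟨l, hl, fun x => ?_⟩
  rw [hl]
  set D : ℝ := cntAcc acc l x - prob acc x * M with hD
  have hle : Real.exp (h * |D|) ≤ 2 * Fintype.card X * Real.exp (h ^ 2 * M) := by
    refine le_trans ?_ hsum
    refine le_trans ?_ (Finset.single_le_sum (f := fun x =>
      (Real.exp (h * (cntAcc acc l x - prob acc x * M)) +
        Real.exp (-h * (cntAcc acc l x - prob acc x * M))))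
      (fun x _ => by positivity) (Finset.mem_univ x))
    rw [← hD]
    rcases abs_cases D with ⟨h2, _⟩ | ⟨h2, _⟩
    · rw [h2]
      have := Real.exp_pos (-h * D)
      linarith
    · rw [h2]
      have := Real.exp_pos (h * D)
      have h3 : h * -D = -h * D := by ring
      rw [h3]
      linarith
  have h2 : (2 : ℝ) * Fintype.card X ≤ Real.exp (N + 1) := by
    rw [hX]
    push_cast
    have h3 : (2 : ℝ) ≤ Real.exp 1 := by
      have := Real.add_one_le_exp (1 : ℝ)
      linarith
    have h4 : (2 : ℝ) * 2 ^ N = 2 ^ (N + 1) := by ring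
    rw [h4]
    calc (2 : ℝ) ^ (N + 1) ≤ Real.exp 1 ^ (N + 1) := by gcongr
      _ = Real.exp (N + 1) := by
        rw [← Real.exp_nat_mul]
        congr 1
        push_cast
        ring
  have h3 : Real.exp (h * |D|) ≤ Real.exp (N + 1 + h ^ 2 * M) := by
    rw [Real.exp_add]
    exact hle.trans (mul_le_mul_of_nonneg_right h2 (Real.exp_pos _).le)
  have h4 : h * |D| ≤ N + 1 + h ^ 2 * M := Real.exp_le_exp.1 h3
  -- simplify
  have h5 : (M : ℝ) = (N + 1) * (2 * d) ^ 2 := by
    rw [hM]
    push_cast
    ring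
  have h6 : h * (2 * d) = 1 := by
    rw [hh]
    field_simp
  have h7 : |D| ≤ (N + 1) * (2 * d) + h * M := by
    have h8 := mul_le_mul_of_nonneg_left h4 hpow.le
    have h9 : (2 * d : ℝ) * (h * |D|) = |D| := by
      rw [← mul_assoc, mul_comm (2 * (d : ℝ)) h, h6, one_mul]
    rw [h9] at h8
    have h10 : (2 * d : ℝ) * (N + 1 + h ^ 2 * M) =
        (N + 1) * (2 * d) + (h * (2 * d)) * (h * M) := by ring
    rw [h10, h6, one_mul] at h8
    exact h8
  refine h7.trans ?_
  have h8 : h * M = (N + 1) * (2 * d) := by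
    rw [h5]
    have : h * ((N + 1) * (2 * d) ^ 2) = (h * (2 * d)) * ((N + 1) * (2 * d)) := by
      ring
    rw [this, h6, one_mul]
  rw [h8, h5, le_div_iff₀ hd0]
  apply le_of_eq
  ring

end Pool.Agent.NotLimited
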