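import Pool.Agent.Lib.MP_b573ec_lc_DR.Rep
import Pool.Agent.Lib.MP_b573ec_lc_DR.Sampling
import Pool.Agent.Lib.MP_b573ec_lc_DR.Defs

/-!
Derandomization of circuits with few NOT gates.
-/

set_option autoImplicit false

namespace Pool.Agent.NotLimited

open Pool.Agent.CliqueCircuits

section Cnt

variable {V : Type}

theorem cnt_append (L L' : List (BF V)) (x : V → Prop) :
    cnt (L ++ L') x = cnt L x + cnt L' x := by
  induction L with
  | nil => simp [cnt]
  | cons g L ih => simp only [List.cons_append, cnt, ih]; omega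

open Classical in
theorem cnt_map_range (F : ℕ → BF V) (n : ℕ) (x : V → Prop) :
    cnt ((List.range n).map F) x = ∑ u ∈ Finset.range n, if F u x then 1 else 0 := by
  induction n with
  | zero => simp [cnt]
  | succ n ih =>
    rw [List.range_succ, List.map_append, cnt_append, ih, Finset.sum_range_succ]
    simp [cnt]

open Classical in
/-- the two counts differ by the value of the circuit -/
theorem cnt_diff (q : ℕ) (h c : ℕ → BF V) (hmono : ∀ u x, h (u + 1) x → h u x) (x : V → Prop)
    (P : Prop) (hP : P ↔ ∃ u, u < q ∧ h u x ∧ ¬ h (u + 1) x ∧ c u x) :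
    cnt ((List.range q).map (fun u x => h u x ∧ c u x)) x =
      cnt ((List.range q).map (fun u x => h (u + 1) x ∧ c u x)) x + if P then 1 else 0 := by
  rw [cnt_map_range, cnt_map_range]
  have hanti : ∀ i j, i ≤ j → h j x → h i x := by
    intro i j hij
    induction j, hij using Nat.le_induction with
    | base => exact id
    | succ j hj ih => exact fun hh => ih (hmono j x hh)
  have h1 : ∑ u ∈ Finset.range q, (if h u x ∧ ¬ h (u + 1) x ∧ c u x then 1 else 0) =
      if P then 1 else 0 := by
    by_cases hp : P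
    · rw [if_pos hp]
      obtain ⟨u, hu, ha, hb, hc⟩ := hP.1 hp
      rw [Finset.sum_eq_single_of_mem u (Finset.mem_range.2 hu)]
      · rw [if_pos ⟨ha, hb, hc⟩]
      · intro v _ hvu
        rw [if_neg]
        rintro ⟨ha', hb', _⟩
        rcases lt_or_gt_of_ne hvu with hlt | hlt
        · exact hb' (hanti (v + 1) u hlt ha)
        · exact hb (hanti (u + 1) v hlt ha')
    · rw [if_neg hp]
      refine Finset.sum_eq_zero fun u hu => ?_
      rw [if_neg]
      rintro ⟨ha, hb, hc⟩
      exact hp (hP.2 ⟨u, Finset.mem_range.1 hu, ha, hb, hc⟩)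
  rw [← h1, ← Finset.sum_add_distrib]
  refine Finset.sum_congr rfl fun u _ => ?_
  have := hmono u x
  by_cases ha : h u x <;> by_cases hb : h (u + 1) x <;> by_cases hc : c u x <;>
    simp [ha, hb, hc] <;> tauto

open Classical in
theorem cnt_second_le (q : ℕ) (hq : 1 ≤ q) (h c : ℕ → BF V) (hlast : ∀ x, ¬ h q x)
    (x : V → Prop) :
    cnt ((List.range q).map (fun u x => h (u + 1) x ∧ c u x)) x ≤ q - 1 := by
  rw [cnt_map_range]
  obtain ⟨q', rfl⟩ : ∃ q', q = q' + 1 := ⟨q - 1, by omega⟩
  rw [Finset.sum_range_succ, if_neg (fun hh => hlast x hh.1)]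
  refine (Nat.add_le_add_right (Finset.sum_le_sum (g := fun _ => 1) fun u _ => ?_) _).trans ?_
  · split_ifs <;> omega
  · simp

end Cnt

/-- Deterministic circuits from a list of circuits with few NOT gates. -/
theorem det_of_list {N S ρ R : ℕ} {Ω : Type} (s : Ω → ℕ) (hs : ∀ ω, s ω ≤ S)
    (C : (ω : Ω) → Circuit (Fin N) (s ω)) (hC : ∀ ω, (C ω).numNot ≤ ρ) (l : List Ω)
    (f : (Fin N → Prop) → Prop) (a b : ℕ)
    (h1 : ∀ x, f x → a ≤ cntAcc (fun ω x => ev (C ω) x (C ω).out) l x)
    (h0 : ∀ x, ¬ f x → cntAcc (fun ω x => ev (C ω) x (C ω).out) l x ≤ b)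
    (hab : l.length * (2 ^ ρ - 1) < 2 ^ R * (a - b)) :
    Der (vars (Fin N)) (l.length * 2 ^ ρ * (2 * S + 4 + ρ) +
      2 * ((l.length * 2 ^ ρ) ^ 2 + l.length * 2 ^ ρ + 2) + 5 * 2 ^ R) R {f} := by
  classical
  set q := 2 ^ ρ with hq
  have hq1 : 1 ≤ q := Nat.one_le_two_pow
  choose h c hh0 hh1 hh2 hh3 hh4 using fun ω => exists_rep ρ (C ω) (hC ω)
  let LB : Ω → List (BF (Fin N)) := fun ω => (List.range q).map (fun u x => h ω u x ∧ c ω u x)
  let LG : Ω → List (BF (Fin N)) := fun ω =>
    (List.range q).map (fun u x => h ω (u + 1) x ∧ c ω u x)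
  -- products
  have hprod : ∀ ω, Der (vars (Fin N)) (q * (2 * S + 4 + ρ)) 0
      {g | g ∈ LB ω ∨ g ∈ LG ω} := by
    intro ω
    obtain ⟨K, hK, hder⟩ := hh3 ω
    have e1 := hder.union (Der.fls (A := vars (Fin N)))
    set B : Set (BF (Fin N)) := {f | ∃ u, u < 2 ^ ρ ∧ (f = h ω u ∨ f = c ω u)} ∪
      {fun _ => False} with hB
    have hhB : ∀ u, u ≤ q → h ω u ∈ B := by
      intro u hu
      rcases Nat.lt_or_eq_of_le hu with h' | h'
      · exact Or.inl ⟨u, h', Or.inl rfl⟩
      · right
        rw [Set.mem_singleton_iff]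
        funext x
        simpa using hh1 ω u (by omega) x
    have hcB : ∀ u, u < q → c ω u ∈ B := fun u hu => Or.inl ⟨u, hu, Or.inr rfl⟩
    have e2 := Der.family (A := vars (Fin N) ∪ B) (k := 2) (r := 0) q
      (fun u => {g | g = (fun x => h ω u x ∧ c ω u x) ∨ g = (fun x => h ω (u + 1) x ∧ c ω u x)}) (by
        intro u hu
        have e3 := Der.and2 (A := vars (Fin N) ∪ B) (Or.inr (hhB u hu.le)) (Or.inr (hcB u hu))
        have e4 := Der.and2 (A := vars (Fin N) ∪ B) (Or.inr (hhB (u + 1) hu)) (Or.inr (hcB u hu))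
        refine (e3.union e4).sub ?_
        rintro g (rfl | rfl)
        · exact Or.inl rfl
        · exact Or.inr rfl)
    refine ((e1.trans e2).sub ?_).weaken ?_ (by simp)
    · rintro g (hg | hg)
      · obtain ⟨u, hu, rfl⟩ := List.mem_map.1 hg
        exact ⟨u, List.mem_range.1 hu, Or.inl rfl⟩
      · obtain ⟨u, hu, rfl⟩ := List.mem_map.1 hg
        exact ⟨u, List.mem_range.1 hu, Or.inr rfl⟩
    · have hs1 : 1 ≤ s ω := by
        have := (C ω).out.isLt
        omega
      have hsS := hs ω
      rw [← hq] at hK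
      have e3 : q * (2 * s ω + 2 + ρ) ≤ q * (2 * S + 2 + ρ) := by gcongr
      have e4 : q * (2 * S + 4 + ρ) = q * (2 * S + 2 + ρ) + q * 2 := by ring
      omega
  -- all lists
  let LBs : List Ω → List (BF (Fin N)) := fun l => l.flatMap LB
  let LGs : List Ω → List (BF (Fin N)) := fun l => l.flatMap LG
  have hall : ∀ l : List Ω, Der (vars (Fin N)) (l.length * (q * (2 * S + 4 + ρ))) 0
      {g | g ∈ LBs l ∨ g ∈ LGs l} := by
    intro l
    induction l with
    | nil => exact Der.base (by rintro g (hg | hg) <;> simp [LBs, LGs] at hg)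
    | cons ω l ih =>
      refine (((hprod ω).union ih).sub ?_).weaken ?_ (by simp)
      · rintro g (hg | hg)
        · rcases List.mem_append.1 (by simpa only [LBs, List.flatMap_cons] using hg) with h' | h'
          · exact Or.inl (Or.inl h')
          · exact Or.inr (Or.inl h')
        · rcases List.mem_append.1 (by simpa only [LGs, List.flatMap_cons] using hg) with h' | h'
          · exact Or.inl (Or.inr h')
          · exact Or.inr (Or.inr h')
      · rw [List.length_cons]
        ring_nf
        omega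
  have hlenB : ∀ l : List Ω, (LBs l).length = l.length * q := by
    intro l
    induction l with
    | nil => simp [LBs]
    | cons ω l ih =>
      simp only [LBs, List.flatMap_cons, List.length_append, List.length_cons] at ih ⊢
      rw [ih]
      simp only [LB, List.length_map, List.length_range]
      ring
  have hlenG : ∀ l : List Ω, (LGs l).length = l.length * q := by
    intro l
    induction l with
    | nil => simp [LGs]
    | cons ω l ih =>
      simp only [LGs, List.flatMap_cons, List.length_append, List.length_cons] at ih ⊢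
      rw [ih]
      simp only [LG, List.length_map, List.length_range]
      ring
  have hcnt : ∀ (l : List Ω) x, cnt (LBs l) x = cnt (LGs l) x +
      cntAcc (fun ω x => ev (C ω) x (C ω).out) l x := by
    intro l x
    induction l with
    | nil => simp [LBs, LGs, cnt, cntAcc]
    | cons ω l ih =>
      simp only [LBs, LGs, List.flatMap_cons, cnt_append, cntAcc] at ih ⊢
      rw [ih]
      have e1 : cnt (LB ω) x = cnt (LG ω) x + if ev (C ω) x (C ω).out then 1 else 0 :=
        cnt_diff q (h ω) (c ω) (hh2 ω) x _ (hh4 ω x)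
      rw [e1]
      omega
  have hGle : ∀ (l : List Ω) x, cnt (LGs l) x ≤ l.length * (q - 1) := by
    intro l x
    induction l with
    | nil => simp [LGs, cnt]
    | cons ω l ih =>
      simp only [LGs, List.flatMap_cons, cnt_append, List.length_cons] at ih ⊢
      have e1 : cnt (LG ω) x ≤ q - 1 :=
        cnt_second_le q hq1 (h ω) (c ω) (fun x => hh1 ω q le_rfl x) x
      rw [Nat.add_mul, one_mul]
      omega
  -- thresholds
  set m := l.length * q with hm
  have d1 := hall l
  set A₁ : Set (BF (Fin N)) := vars (Fin N) ∪ {g | g ∈ LBs l ∨ g ∈ LGs l} with hA₁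
  have d2 : Der A₁ (m ^ 2 + m + 2) 0 (Set.range (thr (LBs l))) := by
    have := der_thr (A := A₁) (LBs l) (fun g hg => Or.inr (Or.inl hg))
    rwa [hlenB] at this
  have d3 : Der A₁ (m ^ 2 + m + 2) 0 (Set.range (thr (LGs l))) := by
    have := der_thr (A := A₁) (LGs l) (fun g hg => Or.inr (Or.inr hg))
    rwa [hlenG] at this
  have d4 := d2.union d3
  set A₂ : Set (BF (Fin N)) := A₁ ∪ (Set.range (thr (LBs l)) ∪ Set.range (thr (LGs l))) with hA₂
  -- inversion
  set δ := a - b with hδ
  have d5 : Der A₂ (4 * 2 ^ R) R {f | ∃ j, 1 ≤ j ∧ j < 2 ^ R ∧ f = fun x =>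
      ¬ thr (LGs l) (j * δ) x} := by
    refine der_invert R (fun j => thr (LGs l) (j * δ)) ?_ ?_
    · intro j _ _
      exact Or.inr (Or.inr ⟨j * δ, rfl⟩)
    · intro j _ x hx
      simp only [thr] at hx ⊢
      refine le_trans ?_ hx
      exact Nat.mul_le_mul_right _ (by omega)
  set A₃ : Set (BF (Fin N)) := A₂ ∪ {f | ∃ j, 1 ≤ j ∧ j < 2 ^ R ∧ f = fun x =>
      ¬ thr (LGs l) (j * δ) x} with hA₃
  -- the final OR
  have hR1 : 1 ≤ 2 ^ R := Nat.one_le_two_pow
  let F : ℕ → BF (Fin N) := fun j => if j + 1 < 2 ^ R then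
      (fun x => thr (LBs l) (j * δ + a) x ∧ (fun x => ¬ thr (LGs l) ((j + 1) * δ) x) x)
    else thr (LBs l) (j * δ + a)
  have d6 : Der A₃ ((2 ^ R - 1) * 1) ((2 ^ R - 1) * 0)
      {g | ∃ j, j < 2 ^ R - 1 ∧ g ∈ ({F j} : Set (BF (Fin N)))} := by
    refine Der.family _ _ ?_
    intro j hj
    have e1 : F j = (fun x => thr (LBs l) (j * δ + a) x ∧
        (fun x => ¬ thr (LGs l) ((j + 1) * δ) x) x) := if_pos (by omega)
    rw [e1]
    exact Der.and2 (Or.inl (Or.inr (Or.inl ⟨_, rfl⟩))) (Or.inr ⟨j + 1, by omega, by omega, rfl⟩)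
  set A₄ : Set (BF (Fin N)) := A₃ ∪
    {g | ∃ j, j < 2 ^ R - 1 ∧ g ∈ ({F j} : Set (BF (Fin N)))} with hA₄
  have d7 : Der A₄ 1 0 {fun x => ∃ g ∈ (Finset.range (2 ^ R)).image F, g x} := by
    refine Der.gate (GateFn.or _ ?_)
    intro g hg
    obtain ⟨j, hj, rfl⟩ := Finset.mem_image.1 hg
    rw [Finset.mem_range] at hj
    by_cases hj' : j + 1 < 2 ^ R
    · exact Or.inr ⟨j, by omega, rfl⟩
    · have e1 : F j = thr (LBs l) (j * δ + a) := if_neg hj'
      rw [e1]
      exact Or.inl (Or.inl (Or.inr (Or.inl ⟨_, rfl⟩)))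
  have dall := d1.trans (d4.trans (d5.trans (d6.trans d7)))
  refine (dall.sub ?_).weaken ?_ (by simp)
  · -- correctness
    rintro g rfl
    rw [Set.mem_singleton_iff]
    funext x
    simp only [Finset.exists_mem_image, Finset.mem_range, eq_iff_iff]
    have hc := hcnt l x
    have hG := hGle l x
    set G := cnt (LGs l) x with hGdef
    set Bc := cnt (LBs l) x with hBdef
    set T := cntAcc (fun ω x => ev (C ω) x (C ω).out) l x with hT
    have hδ0 : 0 < δ := by
      rcases Nat.eq_zero_or_pos δ with h' | h'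
      · rw [h', mul_zero] at hab
        omega
      · exact h'
    have hGlt : G < 2 ^ R * δ := lt_of_le_of_lt hG hab
    constructor
    · intro hf
      have hT1 := h1 x hf
      refine ⟨G / δ, ?_, ?_⟩
      · rwa [Nat.div_lt_iff_lt_mul hδ0]
      · have e1 : G / δ * δ ≤ G := Nat.div_mul_le_self G δ
        have e2 : G < (G / δ + 1) * δ := by
          have := Nat.lt_div_mul_add hδ0 (a := G)
          rw [Nat.add_mul, one_mul]
          exact this
        simp only [F]
        split_ifs with h'
        · refine ⟨?_, ?_⟩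
          · change G / δ * δ + a ≤ Bc
            omega
          · change ¬ ((G / δ + 1) * δ ≤ G)
            omega
        · change G / δ * δ + a ≤ Bc
          omega
    · rintro ⟨j, hj, hFj⟩
      by_contra hf
      have hT0 := h0 x hf
      have e1 : j * δ + a ≤ Bc := by
        simp only [F] at hFj
        split_ifs at hFj with h'
        · exact hFj.1
        · exact hFj
      have e2 : G < (j + 1) * δ := by
        simp only [F] at hFj
        split_ifs at hFj with h'
        · have := hFj.2
          change ¬ ((j + 1) * δ ≤ G) at this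
          omega
        · have : j + 1 = 2 ^ R := by omega
          rw [this]
          exact hGlt
      rw [Nat.add_mul, one_mul] at e2
      omega
  · -- size
    have e1 : l.length * (q * (2 * S + 4 + ρ)) = m * (2 * S + 4 + ρ) := by
      rw [hm]; ring
    rw [e1]
    generalize m * (2 * S + 4 + ρ) = X
    generalize m ^ 2 = Y
    omega

end Pool.Agent.NotLimited
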