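import Pool.Agent.Lib.MP_b573ec_lc_DR.Thr

/-!
A circuit with at most `ρ` NOT gates accepts `x` iff `h u x`, `¬ h (u + 1) x` and `c u x` for some
`u < 2 ^ ρ`, where `h` is a decreasing sequence and `h u`, `c u` are computed by small monotone
circuits.
-/

set_option autoImplicit false

namespace Pool.Agent.NotLimited

open Pool.Agent.CliqueCircuits

variable {V : Type} {s : ℕ}

/-- the function computed by gate `i` -/
noncomputable def gf (C : Circuit V s) (i : Fin s) : BF V := fun x => ev C x i

theorem der_gates (C : Circuit V s) (hC : ∀ i, C.kind i ≠ GateKind.not) :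
    Der (vars V) s 0 (Set.range (gf C)) := by
  classical
  have key : ∀ n, n ≤ s → Der (vars V) n 0 {f | ∃ i : Fin s, i.val < n ∧ f = gf C i} := by
    intro n
    induction n with
    | zero => intro _; exact Der.base (by rintro f ⟨i, hi, _⟩; omega)
    | succ n ih =>
      intro hn
      have h1 := ih (by omega)
      set B : Set (BF V) := {f | ∃ i : Fin s, i.val < n ∧ f = gf C i} with hB
      let i : Fin s := ⟨n, by omega⟩
      let φ : V ⊕ Fin s → BF V := fun w x => Sum.elim x (ev C x) w
      have hφ : ∀ w ∈ C.wires i, φ w ∈ vars V ∪ B := by
        intro w hw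
        cases w with
        | inl v => exact Or.inl ⟨v, rfl⟩
        | inr j =>
          have hj := C.acyclic i j hw
          exact Or.inr ⟨j, hj, rfl⟩
      have h2 : Der (vars V ∪ B) 1 0 {gf C i} := by
        have hev : ∀ x, gf C i x ↔ _ := fun x => ev_spec C x i
        cases hk : C.kind i with
        | and =>
          have h3 := Der.gate (GateFn.and (A := vars V ∪ B) ((C.wires i).image φ) (by
            intro g hg
            obtain ⟨w, hw, rfl⟩ := Finset.mem_image.1 hg
            exact hφ w hw))
          refine h3.sub ?_
          intro f hf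
          rw [Set.mem_singleton_iff] at hf ⊢
          rw [hf]
          funext x
          have := hev x
          rw [hk] at this
          simp only [Finset.forall_mem_image, eq_iff_iff]
          exact this
        | or =>
          have h3 := Der.gate (GateFn.or (A := vars V ∪ B) ((C.wires i).image φ) (by
            intro g hg
            obtain ⟨w, hw, rfl⟩ := Finset.mem_image.1 hg
            exact hφ w hw))
          refine h3.sub ?_
          intro f hf
          rw [Set.mem_singleton_iff] at hf ⊢
          rw [hf]
          funext x
          have := hev x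
          rw [hk] at this
          simp only [Finset.exists_mem_image, eq_iff_iff]
          exact this
        | not => exact absurd hk (hC i)
      refine (h1.trans h2.keep).sub ?_
      rintro f ⟨j, hj, rfl⟩
      rcases Nat.lt_succ_iff_lt_or_eq.1 hj with h | h
      · exact Or.inl (Or.inr ⟨j, h, rfl⟩)
      · right
        have : j = i := Fin.ext h
        rw [this]
        rfl
  refine (key s le_rfl).sub ?_
  rintro f ⟨i, rfl⟩
  exact ⟨i, i.isLt, rfl⟩

open Classical in
/-- all NOT gates replaced by the constant true -/
noncomputable def cut (C : Circuit V s) : Circuit V s where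
  kind i := if C.kind i = GateKind.not then GateKind.and else C.kind i
  wires i := if C.kind i = GateKind.not then ∅ else C.wires i
  acyclic := by
    intro i j hij
    split_ifs at hij with h
    · simp at hij
    · exact C.acyclic i j hij
  unary := by
    intro i hi
    split_ifs at hi with h
    exact absurd hi h
  out := C.out

theorem cut_kind (C : Circuit V s) (i : Fin s) : (cut C).kind i ≠ GateKind.not := by
  simp only [cut]
  split_ifs with h
  · simp
  · exact h

theorem ev_cut (C : Circuit V s) (x : V → Prop) (i : Fin s)
    (hi : ∀ j, j ≤ i → C.kind j ≠ GateKind.not) : ev (cut C) x i ↔ ev C x i := by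
  have key : ∀ N : ℕ, ∀ j : Fin s, j.val = N → j ≤ i → (ev (cut C) x j ↔ ev C x j) := by
    intro N
    induction N using Nat.strong_induction_on with
    | _ N ih =>
      intro j hj hji
      have hk := hi j hji
      have h1 := ev_spec (cut C) x j
      have h2 := ev_spec C x j
      have hw : ∀ w ∈ C.wires j, (Sum.elim x (ev (cut C) x) w ↔ Sum.elim x (ev C x) w) := by
        intro w hw
        cases w with
        | inl v => exact Iff.rfl
        | inr j' =>
          have hj' := C.acyclic j j' hw
          exact ih j'.val (by rw [← hj]; exact hj') j' rfl (le_trans hj'.le hji)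
      simp only [cut, if_neg hk] at h1
      rw [h2]
      refine h1.trans ?_
      cases hk' : C.kind j with
      | and => exact forall₂_congr hw
      | or =>
        constructor
        · rintro ⟨w, hw', hv⟩
          exact ⟨w, hw', (hw w hw').1 hv⟩
        · rintro ⟨w, hw', hv⟩
          exact ⟨w, hw', (hw w hw').2 hv⟩
      | not => exact absurd hk' hk
  exact key i.val i rfl le_rfl

/-- gate `i` replaced by the constant `b` -/
def repl (C : Circuit V s) (i : Fin s) (b : Bool) : Circuit V s where
  kind := Function.update C.kind i (if b then GateKind.and else GateKind.or)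
  wires := Function.update C.wires i ∅
  acyclic := by
    intro j k hjk
    by_cases h : j = i
    · rw [h, Function.update_self] at hjk
      simp at hjk
    · rw [Function.update_of_ne h] at hjk
      exact C.acyclic j k hjk
  unary := by
    intro j hj
    by_cases h : j = i
    · rw [h, Function.update_self] at hj
      cases b <;> simp at hj
    · rw [Function.update_of_ne h] at hj ⊢
      exact C.unary j hj
  out := C.out

theorem ev_repl (C : Circuit V s) (i : Fin s) (b : Bool) (x : V → Prop)
    (h : ev C x i ↔ b = true) : ev (repl C i b) x = ev C x := by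
  apply ev_eq
  intro j
  by_cases hj : j = i
  · rw [hj]
    simp only [repl, Function.update_self]
    cases b with
    | true => simpa using h
    | false => simpa using h
  · simp only [repl, Function.update_of_ne hj]
    exact ev_spec C x j

theorem numNot_repl (C : Circuit V s) (i : Fin s) (b : Bool) (hi : C.kind i = GateKind.not) :
    (repl C i b).numNot + 1 ≤ C.numNot := by
  classical
  rw [numNot_eq, numNot_eq, ← Finset.add_sum_erase _ _ (Finset.mem_univ i),
    ← Finset.add_sum_erase (Finset.univ) (fun j => if C.kind j = GateKind.not then 1 else 0)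
      (Finset.mem_univ i)]
  have h1 : (if (repl C i b).kind i = GateKind.not then 1 else 0) = 0 := by
    simp only [repl, Function.update_self]
    cases b <;> simp
  have h2 : ∑ j ∈ Finset.univ.erase i, (if (repl C i b).kind j = GateKind.not then 1 else 0) =
      ∑ j ∈ Finset.univ.erase i, (if C.kind j = GateKind.not then 1 else 0) := by
    refine Finset.sum_congr rfl fun j hj => ?_
    simp only [repl, Function.update_of_ne (Finset.ne_of_mem_erase hj)]
  rw [h1, h2, if_pos hi]
  omega

/-- The representation of a circuit with few NOT gates. -/
theorem exists_rep (ρ : ℕ) : ∀ (C : Circuit V s), C.numNot ≤ ρ →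
    ∃ h c : ℕ → BF V, (∀ x, h 0 x) ∧ (∀ u, 2 ^ ρ ≤ u → ∀ x, ¬ h u x) ∧
      (∀ u x, h (u + 1) x → h u x) ∧
      (∃ K, K + s ≤ 2 ^ ρ * (2 * s + 2 + ρ) ∧
        Der (vars V) K 0 {f | ∃ u, u < 2 ^ ρ ∧ (f = h u ∨ f = c u)}) ∧
      ∀ x, (ev C x C.out ↔ ∃ u, u < 2 ^ ρ ∧ h u x ∧ ¬ h (u + 1) x ∧ c u x) := by
  classical
  induction ρ with
  | zero =>
    intro C hC
    have hk : ∀ i, C.kind i ≠ GateKind.not := by
      intro i hi
      have h1 := numNot_repl C i true hi
      omega
    refine ⟨fun u x => u = 0, fun _ => gf C C.out, fun x => rfl, ?_, ?_, ?_, ?_⟩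
    · intro u hu x
      simp only [pow_zero] at hu
      omega
    · intro u x h
      omega
    · have h1 := (der_gates C hk).union (Der.tru (A := vars V))
      refine ⟨s + 1, by simp; omega, (h1.sub ?_).weaken le_rfl (by simp)⟩
      rintro f ⟨u, hu, rfl | rfl⟩
      · right
        simp only [pow_zero, Nat.lt_one_iff] at hu
        rw [Set.mem_singleton_iff]
        funext x
        simp [hu]
      · left
        exact ⟨C.out, rfl⟩
    · intro x
      constructor
      · intro h
        exact ⟨0, by simp, rfl, by simp, h⟩
      · rintro ⟨u, _, _, _, h⟩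
        exact h
  | succ ρ ih =>
    intro C hC
    by_cases hne : ∃ i, C.kind i = GateKind.not
    · -- the first NOT gate
      obtain ⟨i, hi, hmin⟩ := WellFounded.has_min (wellFounded_lt (α := Fin s))
        {i | C.kind i = GateKind.not} hne
      simp only [Set.mem_ofPred_eq] at hi hmin
      obtain ⟨w, hw⟩ := Finset.card_eq_one.1 (C.unary i hi)
      -- its input
      let g : BF V := fun x => Sum.elim x (ev C x) w
      have hig : ∀ x, ev C x i ↔ ¬ g x := by
        intro x
        have := ev_spec C x i
        simp only [hi, hw, Finset.mem_singleton, forall_eq] at this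
        exact this
      have hg : Der (vars V) s 0 {g} := by
        cases hw' : w with
        | inl v =>
          refine Der.base ?_
          rintro f rfl
          exact ⟨v, by funext x; simp only [g, hw', Sum.elim_inl]⟩
        | inr j =>
          refine (der_gates (cut C) (cut_kind C)).sub ?_
          rintro f rfl
          refine ⟨j, ?_⟩
          funext x
          simp only [g, hw', gf, Sum.elim_inr, eq_iff_iff]
          refine ev_cut C x j ?_
          intro j' hj' hk
          have hji : j < i := C.acyclic i j (by rw [hw, hw']; simp)
          exact hmin j' hk (lt_of_le_of_lt hj' hji)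
      obtain ⟨h₀, c₀, h01, h02, h03, ⟨K₀, hK₀, h04⟩, h05⟩ := ih (repl C i true) (by
        have := numNot_repl C i true hi
        omega)
      obtain ⟨h₁, c₁, h11, h12, h13, ⟨K₁, hK₁, h14⟩, h15⟩ := ih (repl C i false) (by
        have := numNot_repl C i false hi
        omega)
      have hpow : 2 ^ (ρ + 1) = 2 ^ ρ + 2 ^ ρ := by rw [pow_succ]; omega
      have hpos : 1 ≤ 2 ^ ρ := Nat.one_le_two_pow
      let h : ℕ → BF V := fun u => if u < 2 ^ ρ then (fun x => g x ∨ h₀ u x)
        else (fun x => g x ∧ h₁ (u - 2 ^ ρ) x)
      let c : ℕ → BF V := fun u => if u < 2 ^ ρ then c₀ u else c₁ (u - 2 ^ ρ)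
      have hlow : ∀ u, u < 2 ^ ρ → h u = fun x => g x ∨ h₀ u x := fun u hu => if_pos hu
      have hhigh : ∀ u, h (2 ^ ρ + u) = fun x => g x ∧ h₁ u x := by
        intro u
        simp only [h]
        rw [if_neg (by omega), Nat.add_sub_cancel_left]
      have clow : ∀ u, u < 2 ^ ρ → c u = c₀ u := fun u hu => if_pos hu
      have chigh : ∀ u, c (2 ^ ρ + u) = c₁ u := by
        intro u
        simp only [c]
        rw [if_neg (by omega), Nat.add_sub_cancel_left]
      refine ⟨h, c, ?_, ?_, ?_, ?_, ?_⟩
      · intro x
        rw [hlow 0 (by omega)]
        exact Or.inr (h01 x)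
      · intro u hu x
        obtain ⟨u', rfl⟩ : ∃ u', u = 2 ^ ρ + u' := ⟨u - 2 ^ ρ, by omega⟩
        rw [hhigh]
        exact fun hh => h12 u' (by omega) x hh.2
      · intro u x hx
        rcases lt_trichotomy (u + 1) (2 ^ ρ) with h' | h' | h'
        · rw [hlow _ h'] at hx
          rw [hlow _ (by omega)]
          rcases hx with hx | hx
          · exact Or.inl hx
          · exact Or.inr (h03 u x hx)
        · have h1 := hhigh 0
          rw [add_zero] at h1
          rw [h', h1] at hx
          rw [hlow _ (by omega)]
          exact Or.inl hx.1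
        · obtain ⟨u', rfl⟩ : ∃ u', u = 2 ^ ρ + u' := ⟨u - 2 ^ ρ, by omega⟩
          rw [add_assoc, hhigh] at hx
          rw [hhigh]
          exact ⟨hx.1, h13 u' x hx.2⟩
      · have h1 := (hg.union h04).union h14
        set B : Set (BF V) := ({g} ∪ {f | ∃ u, u < 2 ^ ρ ∧ (f = h₀ u ∨ f = c₀ u)}) ∪
          {f | ∃ u, u < 2 ^ ρ ∧ (f = h₁ u ∨ f = c₁ u)} with hB
        have h2 : Der (vars V ∪ B) (2 ^ ρ * 2) (2 ^ ρ * 0)
            {f | ∃ u, u < 2 ^ ρ ∧ f ∈ ({h u, h (2 ^ ρ + u)} : Set (BF V))} := by
          refine Der.family _ _ ?_
          intro u hu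
          have hgB : g ∈ vars V ∪ B := Or.inr (Or.inl (Or.inl rfl))
          have h3 := Der.or2 hgB (show h₀ u ∈ vars V ∪ B from
            Or.inr (Or.inl (Or.inr ⟨u, hu, Or.inl rfl⟩)))
          have h4 := Der.and2 hgB (show h₁ u ∈ vars V ∪ B from
            Or.inr (Or.inr ⟨u, hu, Or.inl rfl⟩))
          refine (h3.union h4).sub ?_
          rintro f (rfl | rfl)
          · left
            rw [Set.mem_singleton_iff]
            exact hlow u hu
          · right
            rw [Set.mem_singleton_iff]
            exact hhigh u
        have h3 := h1.trans h2.keep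
        refine ⟨_, ?_, (h3.sub ?_).weaken le_rfl (by simp)⟩
        · rw [pow_succ]
          nlinarith [hpos, Nat.zero_le s]
        · rintro f ⟨u, hu, hf⟩
          by_cases hul : u < 2 ^ ρ
          · rcases hf with rfl | rfl
            · right
              exact ⟨u, hul, Or.inl rfl⟩
            · left; right; left; right
              exact ⟨u, hul, Or.inr (clow u hul)⟩
          · obtain ⟨u', rfl⟩ : ∃ u', u = 2 ^ ρ + u' := ⟨u - 2 ^ ρ, by omega⟩
            rcases hf with rfl | rfl
            · right
              exact ⟨u', by omega, Or.inr rfl⟩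
            · left; right; right
              exact ⟨u', by omega, Or.inr (chigh u')⟩
      · intro x
        by_cases hgx : g x
        · -- the NOT gate gives false
          have h1 : ev (repl C i false) x = ev C x := ev_repl C i false x (by
            rw [hig x]; simp [hgx])
          have h2 : ev C x C.out ↔ ev (repl C i false) x (repl C i false).out := by
            rw [h1]; rfl
          rw [h2, h15 x]
          constructor
          · rintro ⟨u, hu, ha, hb, hc⟩
            refine ⟨2 ^ ρ + u, by omega, ?_, ?_, ?_⟩
            · rw [hhigh]; exact ⟨hgx, ha⟩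
            · rw [add_assoc, hhigh]; exact fun hh => hb hh.2
            · rw [chigh]; exact hc
          · rintro ⟨u, hu, ha, hb, hc⟩
            rcases lt_trichotomy (u + 1) (2 ^ ρ) with h' | h' | h'
            · rw [hlow _ h'] at hb
              exact absurd (Or.inl hgx) hb
            · have h1 := hhigh 0
              rw [add_zero] at h1
              rw [h', h1] at hb
              exact absurd ⟨hgx, h11 x⟩ hb
            · obtain ⟨u', rfl⟩ : ∃ u', u = 2 ^ ρ + u' := ⟨u - 2 ^ ρ, by omega⟩
              rw [hhigh] at ha
              rw [add_assoc, hhigh] at hb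
              rw [chigh] at hc
              exact ⟨u', by omega, ha.2, fun hh => hb ⟨hgx, hh⟩, hc⟩
        · have h1 : ev (repl C i true) x = ev C x := ev_repl C i true x (by
            rw [hig x]; simp [hgx])
          have h2 : ev C x C.out ↔ ev (repl C i true) x (repl C i true).out := by
            rw [h1]; rfl
          rw [h2, h05 x]
          constructor
          · rintro ⟨u, hu, ha, hb, hc⟩
            refine ⟨u, by omega, ?_, ?_, ?_⟩
            · rw [hlow u hu]; exact Or.inr ha
            · by_cases hu' : u + 1 < 2 ^ ρ
              · rw [hlow _ hu']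
                exact fun hh => hh.elim hgx hb
              · have h3 : u + 1 = 2 ^ ρ + 0 := by omega
                rw [h3, hhigh]
                exact fun hh => hgx hh.1
            · rw [clow u hu]; exact hc
          · rintro ⟨u, hu, ha, hb, hc⟩
            by_cases hu' : u < 2 ^ ρ
            · rw [hlow u hu'] at ha
              rw [clow u hu'] at hc
              refine ⟨u, hu', ha.resolve_left hgx, ?_, hc⟩
              intro hh
              by_cases hu'' : u + 1 < 2 ^ ρ
              · rw [hlow _ hu''] at hb
                exact hb (Or.inr hh)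
              · exact h02 (u + 1) (by omega) x hh
            · obtain ⟨u', rfl⟩ : ∃ u', u = 2 ^ ρ + u' := ⟨u - 2 ^ ρ, by omega⟩
              rw [hhigh] at ha
              exact absurd ha.1 hgx
    · -- no NOT gate
      have h0 : C.numNot ≤ ρ := by
        have : C.numNot = 0 := by
          rw [numNot_eq]
          refine Finset.sum_eq_zero fun i _ => ?_
          rw [if_neg]
          exact fun h => hne ⟨i, h⟩
        omega
      obtain ⟨h, c, h1, h2, h3, ⟨K, hK, h4⟩, h5⟩ := ih C h0
      have hpow : 2 ^ (ρ + 1) = 2 ^ ρ + 2 ^ ρ := by rw [pow_succ]; omega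
      have hpos : 1 ≤ 2 ^ ρ := Nat.one_le_two_pow
      let c' : ℕ → BF V := fun u => if u < 2 ^ ρ then c u else fun _ => False
      have clow : ∀ u, u < 2 ^ ρ → c' u = c u := fun u hu => if_pos hu
      have chigh : ∀ u, ¬ u < 2 ^ ρ → c' u = fun _ => False := fun u hu => if_neg hu
      refine ⟨h, c', h1, fun u hu => h2 u (by omega), h3, ?_, ?_⟩
      · have h6 := h4.union (Der.fls (A := vars V))
        refine ⟨_, ?_, (h6.sub ?_).weaken le_rfl (by simp)⟩
        · rw [pow_succ]
          nlinarith [hpos, Nat.zero_le s]
        · rintro f ⟨u, hu, rfl | rfl⟩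
          · by_cases hu' : u < 2 ^ ρ
            · left
              exact ⟨u, hu', Or.inl rfl⟩
            · right
              rw [Set.mem_singleton_iff]
              funext x
              simpa using h2 u (by omega) x
          · by_cases hu' : u < 2 ^ ρ
            · left
              exact ⟨u, hu', Or.inr (clow u hu')⟩
            · right
              rw [chigh u hu', Set.mem_singleton_iff]
      · intro x
        rw [h5 x]
        constructor
        · rintro ⟨u, hu, ha, hb, hc⟩
          refine ⟨u, by omega, ha, hb, ?_⟩
          rw [clow u hu]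
          exact hc
        · rintro ⟨u, hu, ha, hb, hc⟩
          by_cases hu' : u < 2 ^ ρ
          · rw [clow u hu'] at hc
            exact ⟨u, hu', ha, hb, hc⟩
          · exact absurd ha (h2 u (by omega) x)

end Pool.Agent.NotLimited
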