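import Pool.Agent.Lib.MP_b573ec_lc_DR.Final

/-!
One-sided error saves a NOT gate.
-/

set_option autoImplicit false

namespace Pool.Agent.NotLimited

open Pool.Agent.CliqueCircuits

section General

variable {V : Type} {s : ℕ}

/-- If the NOT gates have the same values on `x ≤ x'`, and `x ≤ z ≤ x'`, then everything which is
true on `x` is true on `z`. -/
theorem sandwich {C : Circuit V s} {x z x' : V → Prop} {val valz val' : Fin s → Prop}
    (h : C.IsEvalM x val) (hz : C.IsEvalM z valz) (h' : C.IsEvalM x' val')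
    (hxz : ∀ v, x v → z v) (hzx' : ∀ v, z v → x' v)
    (hn : ∀ i, C.kind i = GateKind.not → (val i ↔ val' i)) : ∀ i, val i → valz i := by
  have key : ∀ N : ℕ, ∀ i : Fin s, i.val = N → C.kind i = GateKind.not →
      (val i ↔ valz i) ∧ (valz i ↔ val' i) := by
    intro N
    induction N using Nat.strong_induction_on with
    | _ N ih =>
      intro i hi hk
      have h1 : ∀ j, j < i → val j → valz j := by
        refine Circuit.mono_before h hz hxz i ?_
        intro j hj hkj
        exact (ih j.val (by rw [← hi]; exact hj) j rfl hkj).1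
      have h2 : ∀ j, j < i → valz j → val' j := by
        refine Circuit.mono_before hz h' hzx' i ?_
        intro j hj hkj
        exact (ih j.val (by rw [← hi]; exact hj) j rfl hkj).2
      have h3 : valz i → val i := by
        intro hv
        have e1 := (hz i).1 hv
        rw [h i]
        simp only [hk] at e1 ⊢
        intro w hw hvw
        apply e1 w hw
        cases w with
        | inl v => exact hxz v hvw
        | inr j => exact h1 j (C.acyclic i j hw) hvw
      have h4 : val' i → valz i := by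
        intro hv
        have e1 := (h' i).1 hv
        rw [hz i]
        simp only [hk] at e1 ⊢
        intro w hw hvw
        apply e1 w hw
        cases w with
        | inl v => exact hzx' v hvw
        | inr j => exact h2 j (C.acyclic i j hw) hvw
      have h5 := hn i hk
      constructor <;> constructor <;> tauto
  intro i hv
  have hs : 0 < s := lt_of_le_of_lt (Nat.zero_le _) i.isLt
  -- gates of all positions
  have main : ∀ N : ℕ, ∀ i : Fin s, i.val = N → val i → valz i := by
    intro N
    induction N using Nat.strong_induction_on with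
    | _ N ih =>
      intro i hi hv
      have hw : ∀ w ∈ C.wires i, Sum.elim x val w → Sum.elim z valz w := by
        intro w hw hvw
        cases w with
        | inl v => exact hxz v hvw
        | inr j => exact ih j.val (by rw [← hi]; exact C.acyclic i j hw) j rfl hvw
      cases hk : C.kind i with
      | and =>
        have h1 := (h i).1 hv
        simp only [hk] at h1
        rw [hz i]
        simp only [hk]
        exact fun w hw' => hw w hw' (h1 w hw')
      | or =>
        have h1 := (h i).1 hv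
        simp only [hk] at h1
        rw [hz i]
        simp only [hk]
        obtain ⟨w, hw', hvw⟩ := h1
        exact ⟨w, hw', hw w hw' hvw⟩
      | not => exact (key i.val i rfl hk).1.1 hv
  exact main i.val i rfl hv

end General

/-- the number of ones -/
def weight {N : ℕ} (x : Fin N → Bool) : ℕ := (Finset.univ.filter (fun i => x i = true)).card

theorem weight_prefix {N j : ℕ} (hj : j ≤ N) :
    weight (fun i : Fin N => decide (i.val < j)) = j := by
  unfold weight
  have : (Finset.univ.filter (fun i : Fin N => decide (i.val < j) = true)) =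
      (Finset.univ : Finset (Fin j)).map (Fin.castLEEmb hj) := by
    ext i
    simp only [decide_eq_true_eq, Finset.mem_filter, Finset.mem_univ, true_and, Finset.mem_map]
    constructor
    · intro h
      exact ⟨⟨i.val, h⟩, Fin.ext rfl⟩
    · rintro ⟨k, rfl⟩
      exact k.isLt
  rw [this]
  simp

/-- The function with ones at the weights `0, 2, …, 2 ^ (ρ + 1) - 2` needs `ρ + 1` NOT gates. -/
theorem needs_not {N ρ s : ℕ} (hN : 2 ^ (ρ + 1) ≤ N + 1) (D : Circuit (Fin N) s)
    (hD : ∀ x, Accepts D x ↔ ∃ j, j < 2 ^ ρ ∧ weight x = 2 * j) : ρ < D.numNot := by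
  by_contra hcon
  push Not at hcon
  let X : ℕ → Fin N → Prop := fun j i => i.val < j
  have hX : ∀ j, (fun i : Fin N => (fun i : Fin N => decide (i.val < j)) i = true) = X j := by
    intro j
    funext i
    simp [X]
  obtain ⟨j, hj, hsame⟩ := markov hcon (fun j => X (2 * j)) (fun j => ev D (X (2 * j)))
    (fun j => ev_spec D _) (by
      intro j v hv
      simp only [X] at hv ⊢
      omega)
  have hpow : 2 ^ (ρ + 1) = 2 * 2 ^ ρ := by rw [pow_succ]; ring
  have h1 := sandwich (ev_spec D (X (2 * j))) (ev_spec D (X (2 * j + 1)))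
    (ev_spec D (X (2 * (j + 1)))) (by
      intro v hv; simp only [X] at hv ⊢; omega) (by
      intro v hv; simp only [X] at hv ⊢; omega) hsame D.out
  have h2 : Accepts D (fun i : Fin N => decide (i.val < 2 * j)) := by
    rw [hD]
    exact ⟨j, hj, weight_prefix (by omega)⟩
  rw [accepts_iff, hX] at h2
  have h3 := h1 h2
  rw [← hX, ← accepts_iff, hD] at h3
  obtain ⟨j', _, hj'⟩ := h3
  rw [weight_prefix (by omega)] at hj'
  omega

/-- The list of the variables. -/
def varList (N : ℕ) : List (BF (Fin N)) := (List.finRange N).map (fun i x => x i)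

open Classical in
theorem cnt_varList {N : ℕ} (x : Fin N → Prop) :
    cnt (varList N) x = weight (fun i => decide (x i)) := by
  have key : ∀ l : List (Fin N), cnt (l.map (fun i (x : Fin N → Prop) => x i)) x =
      (l.map (fun i => if x i then 1 else 0)).sum := by
    intro l
    induction l with
    | nil => simp [cnt]
    | cons a l ih => simp only [List.map_cons, cnt, ih, List.sum_cons]
  rw [varList, key, weight, Finset.card_filter, ← List.ofFn_eq_map, List.sum_ofFn]
  refine Finset.sum_congr rfl fun i _ => ?_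
  simp

/-- With `ρ` NOT gates one can accept the weights `2 j` for fewer than `2 ^ ρ` numbers `j`. -/
theorem der_levels {N ρ : ℕ} (W : Finset ℕ) (hW : W.card < 2 ^ ρ) :
    Der (vars (Fin N)) (N ^ 2 + N + 2 + 5 * 2 ^ ρ) ρ
      {fun x => ∃ j ∈ W, weight (fun i => @decide (x i) (Classical.propDecidable _)) = 2 * j} := by
  classical
  have hlen : (varList N).length = N := by simp [varList]
  have d1 : Der (vars (Fin N)) (N ^ 2 + N + 2) 0 (Set.range (thr (varList N))) := by
    have := der_thr (A := vars (Fin N)) (varList N) (by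
      intro g hg
      obtain ⟨i, _, rfl⟩ := List.mem_map.1 hg
      exact ⟨i, rfl⟩)
    rwa [hlen] at this
  -- the i-th level
  let φ : ℕ → ℕ := fun i => if h : i - 1 < W.card then W.orderEmbOfFin rfl ⟨i - 1, h⟩
    else W.sup id + N + 1
  have hφ1 : ∀ i (h : i - 1 < W.card), φ i = W.orderEmbOfFin rfl ⟨i - 1, h⟩ := by
    intro i h
    simp only [φ]
    rw [dif_pos h]
  have hφ2 : ∀ i, ¬ i - 1 < W.card → φ i = W.sup id + N + 1 := by
    intro i h
    simp only [φ]
    rw [dif_neg h]
  have hsup : ∀ j ∈ W, j ≤ W.sup id := fun j hj => Finset.le_sup (f := id) hj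
  have hweight : ∀ x : Fin N → Bool, weight x ≤ N := by
    intro x
    unfold weight
    exact (Finset.card_le_univ _).trans (by simp)
  set A₁ : Set (BF (Fin N)) := vars (Fin N) ∪ Set.range (thr (varList N)) with hA₁
  have hpos : 1 ≤ 2 ^ ρ := Nat.one_le_two_pow
  have hφ : ∀ i, 1 ≤ i → φ i ≤ φ (i + 1) := by
    intro i hi
    by_cases h1 : i < W.card
    · rw [hφ1 i (by omega), hφ1 (i + 1) (by omega)]
      exact (W.orderEmbOfFin rfl).monotone (by
        rw [Fin.mk_le_mk]
        omega)
    · rw [hφ2 (i + 1) (by omega)]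
      by_cases h2 : i - 1 < W.card
      · rw [hφ1 i h2]
        have := hsup _ (W.orderEmbOfFin_mem rfl ⟨i - 1, h2⟩)
        omega
      · rw [hφ2 i h2]
  have d2 : Der A₁ (4 * 2 ^ ρ) ρ {f | ∃ i, 1 ≤ i ∧ i < 2 ^ ρ ∧ f = fun x =>
      ¬ thr (varList N) (2 * φ i + 1) x} := by
    refine der_invert ρ (fun i => thr (varList N) (2 * φ i + 1)) ?_ ?_
    · intro i _ _
      exact Or.inr ⟨_, rfl⟩
    · intro i hi x hx
      simp only [thr] at hx ⊢
      have := hφ i hi
      omega
  set A₂ : Set (BF (Fin N)) := A₁ ∪ {f | ∃ i, 1 ≤ i ∧ i < 2 ^ ρ ∧ f = fun x =>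
      ¬ thr (varList N) (2 * φ i + 1) x} with hA₂
  let F : ℕ → BF (Fin N) := fun i x => thr (varList N) (2 * φ (i + 1)) x ∧
    (fun x => ¬ thr (varList N) (2 * φ (i + 1) + 1) x) x
  have d3 : Der A₂ ((2 ^ ρ - 1) * 1) ((2 ^ ρ - 1) * 0)
      {g | ∃ i, i < 2 ^ ρ - 1 ∧ g ∈ ({F i} : Set (BF (Fin N)))} := by
    refine Der.family _ _ ?_
    intro i hi
    exact Der.and2 (Or.inl (Or.inr ⟨_, rfl⟩)) (Or.inr ⟨i + 1, by omega, by omega, rfl⟩)
  set A₃ : Set (BF (Fin N)) := A₂ ∪
    {g | ∃ i, i < 2 ^ ρ - 1 ∧ g ∈ ({F i} : Set (BF (Fin N)))} with hA₃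
  have d4 : Der A₃ 1 0 {fun x => ∃ g ∈ (Finset.range (2 ^ ρ - 1)).image F, g x} := by
    refine Der.gate (GateFn.or _ ?_)
    intro g hg
    obtain ⟨i, hi, rfl⟩ := Finset.mem_image.1 hg
    exact Or.inr ⟨i, Finset.mem_range.1 hi, rfl⟩
  have dall := d1.trans (d2.trans (d3.trans d4))
  refine (dall.sub ?_).weaken ?_ (by simp)
  · rintro g rfl
    rw [Set.mem_singleton_iff]
    funext x
    simp only [Finset.exists_mem_image, Finset.mem_range, eq_iff_iff, F, thr, cnt_varList]
    constructor
    · rintro ⟨j, hj, hw⟩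
      have hj' : j ∈ Set.range (W.orderEmbOfFin rfl) := by
        rw [Finset.range_orderEmbOfFin]
        exact hj
      obtain ⟨k, hk⟩ := hj'
      have hkc := k.isLt
      refine ⟨k.val, by omega, ?_⟩
      have h1 : φ (k.val + 1) = j := by
        rw [hφ1 (k.val + 1) (by omega), ← hk]
        rfl
      rw [h1]
      omega
    · rintro ⟨i, hi, h1, h2⟩
      by_cases h3 : i + 1 - 1 < W.card
      · refine ⟨φ (i + 1), ?_, by omega⟩
        rw [hφ1 _ h3]
        exact W.orderEmbOfFin_mem rfl _
      · exfalso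
        rw [hφ2 _ h3] at h1
        have := hweight (fun i => @decide (x i) (Classical.propDecidable _))
        omega
  · omega

/-- the number of `ω` with `j - ω < m` modulo `n` is `m` -/
theorem card_window {n m : ℕ} [NeZero n] (hm : m ≤ n) (j : Fin n) :
    (Finset.univ.filter (fun ω : Fin n => (j - ω).val < m)).card = m := by
  have h1 : (Finset.univ.filter (fun ω : Fin n => (j - ω).val < m)).card =
      (Finset.univ.filter (fun ω : Fin n => ω.val < m)).card := by
    refine Finset.card_bij (fun ω _ => j - ω) ?_ ?_ ?_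
    · intro ω hω
      simpa using hω
    · intro a _ b _ hab
      exact sub_right_injective hab
    · intro b hb
      refine ⟨j - b, ?_, ?_⟩
      · simpa using hb
      · simp
  rw [h1]
  have h2 : (Finset.univ.filter (fun ω : Fin n => ω.val < m)) =
      (Finset.univ : Finset (Fin m)).map (Fin.castLEEmb hm) := by
    ext i
    simp only [Finset.mem_filter, Finset.mem_univ, true_and, Finset.mem_map]
    constructor
    · intro h
      exact ⟨⟨i.val, h⟩, Fin.ext rfl⟩
    · rintro ⟨k, rfl⟩
      exact k.isLt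
  rw [h2]
  simp

/-- Random circuits with `ρ` NOT gates accept with probability `(2 ^ ρ - 1) / 2 ^ R` exactly the
inputs of a function which needs more than `R` NOT gates. -/
theorem separation {N ρ R : ℕ} (hρ : 1 ≤ ρ) (hρR : ρ ≤ R) (hN : 2 ^ (R + 1) ≤ N + 1) :
    ∃ f : (Fin N → Bool) → Prop,
      (∃ (s : Fin (2 ^ R) → ℕ) (C : (ω : Fin (2 ^ R)) → Circuit (Fin N) (s ω)),
        (∀ ω, s ω ≤ 4 * N ^ 2) ∧ (∀ ω, (C ω).numNot ≤ ρ) ∧
        (∀ x, f x → acceptProb C x = (2 ^ ρ - 1) / 2 ^ R) ∧ (∀ x, ¬ f x → acceptProb C x = 0)) ∧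
      ∀ (s : ℕ) (D : Circuit (Fin N) s), (∀ x, Accepts D x ↔ f x) → R < D.numNot := by
  classical
  refine ⟨fun x => ∃ j, j < 2 ^ R ∧ weight x = 2 * j, ?_, fun s D hD => needs_not hN D hD⟩
  have : NeZero (2 ^ R) := ⟨by positivity⟩
  have hle : 2 ^ ρ ≤ 2 ^ R := Nat.pow_le_pow_right (by norm_num) hρR
  have h1ρ : 1 ≤ 2 ^ ρ := Nat.one_le_two_pow
  -- the levels accepted by the circuit `ω`
  let W : Fin (2 ^ R) → Finset ℕ := fun ω =>
    (Finset.univ.filter (fun j : Fin (2 ^ R) => (j - ω).val < 2 ^ ρ - 1)).image Fin.val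
  have hWcard : ∀ ω, (W ω).card < 2 ^ ρ := by
    intro ω
    have h1 : (W ω).card ≤
        (Finset.univ.filter (fun j : Fin (2 ^ R) => (j - ω).val < 2 ^ ρ - 1)).card :=
      Finset.card_image_le
    have h2 : (Finset.univ.filter (fun j : Fin (2 ^ R) => (j - ω).val < 2 ^ ρ - 1)).card ≤
        (Finset.range (2 ^ ρ - 1)).card := by
      refine Finset.card_le_card_of_injOn (fun j => (j - ω).val) ?_ ?_
      · intro j hj
        simpa using hj
      · intro a _ b _ hab
        exact sub_left_injective (Fin.ext hab)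
    rw [Finset.card_range] at h2
    omega
  choose s hs C hC hev using fun ω : Fin (2 ^ R) =>
    (der_levels (N := N) (ρ := ρ) (W ω) (hWcard ω)).toCircuit
  have hacc : ∀ ω x, Accepts (C ω) x ↔ ∃ j ∈ W ω, weight x = 2 * j := by
    intro ω x
    rw [accepts_iff, hev]
    have : (fun i => @decide (x i = true) (Classical.propDecidable _)) = x := by
      funext i
      cases h : x i <;> simp
    rw [this]
  refine ⟨s, C, ?_, hC, ?_, ?_⟩
  · intro ω
    have h1 := hs ω
    have h2 : 2 ^ (R + 1) = 2 * 2 ^ R := by rw [pow_succ]; ring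
    have h3 : 2 ≤ 2 ^ ρ := by
      calc 2 = 2 ^ 1 := by norm_num
        _ ≤ 2 ^ ρ := Nat.pow_le_pow_right (by norm_num) hρ
    have h4 : 3 ≤ N := by omega
    nlinarith
  · intro x hx
    obtain ⟨j, hj, hw⟩ := hx
    have h1 : ∀ ω : Fin (2 ^ R), Accepts (C ω) x ↔
        ((⟨j, hj⟩ : Fin (2 ^ R)) - ω).val < 2 ^ ρ - 1 := by
      intro ω
      rw [hacc]
      constructor
      · rintro ⟨j', hj', hw'⟩
        obtain ⟨k, hk, rfl⟩ := Finset.mem_image.1 hj'
        have hkj : k = ⟨j, hj⟩ := Fin.ext (by simp only; omega)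
        rw [← hkj]
        exact (Finset.mem_filter.1 hk).2
      · intro h
        exact ⟨j, Finset.mem_image.2 ⟨⟨j, hj⟩, Finset.mem_filter.2 ⟨Finset.mem_univ _, h⟩, rfl⟩,
          hw⟩
    unfold acceptProb
    rw [Nat.card_eq_fintype_card, Fintype.card_subtype]
    have h2 : (Finset.univ.filter (fun ω : Fin (2 ^ R) => Accepts (C ω) x)) =
        Finset.univ.filter (fun ω : Fin (2 ^ R) =>
          ((⟨j, hj⟩ : Fin (2 ^ R)) - ω).val < 2 ^ ρ - 1) := by
      ext ω
      simp [h1 ω]
    rw [h2, card_window (by omega), Fintype.card_fin, Nat.cast_sub h1ρ]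
    push_cast
    rfl
  · intro x hx
    unfold acceptProb
    have h1 : IsEmpty {ω : Fin (2 ^ R) // Accepts (C ω) x} := by
      constructor
      rintro ⟨ω, hω⟩
      rw [hacc] at hω
      obtain ⟨j, hj, hw⟩ := hω
      obtain ⟨k, hk, rfl⟩ := Finset.mem_image.1 hj
      exact hx ⟨k.val, k.isLt, hw⟩
    rw [Nat.card_of_isEmpty]
    simp

end Pool.Agent.NotLimited
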