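import Pool.Agent.Lib.MP_b573ec_lc_DR.Der

/-!
Threshold functions by monotone derivations, and the inversion of a decreasing sequence of
`2 ^ R - 1` functions with `R` NOT gates.
-/

set_option autoImplicit false

namespace Pool.Agent.NotLimited

open Pool.Agent.CliqueCircuits

variable {V : Type}

open Classical in
/-- the number of functions of the list which are true at `x` -/
noncomputable def cnt (L : List (BF V)) (x : V → Prop) : ℕ :=
  match L with
  | [] => 0
  | g :: L => (if g x then 1 else 0) + cnt L x

theorem cnt_le (L : List (BF V)) (x : V → Prop) : cnt L x ≤ L.length := by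
  induction L with
  | nil => simp [cnt]
  | cons g L ih =>
    simp only [cnt, List.length_cons]
    split_ifs <;> omega

/-- the threshold function -/
def thr (L : List (BF V)) (t : ℕ) : BF V := fun x => t ≤ cnt L x

theorem der_thr {A : Set (BF V)} (L : List (BF V)) (hL : ∀ g ∈ L, g ∈ A) :
    Der A (L.length ^ 2 + L.length + 2) 0 (Set.range (thr L)) := by
  induction L with
  | nil =>
    have h := (Der.tru (A := A)).union (Der.fls (A := A))
    refine (h.sub ?_).weaken (by simp) (by simp)
    rintro g ⟨t, rfl⟩
    cases t with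
    | zero => left; simp only [Set.mem_singleton_iff]; funext x; simp [thr, cnt]
    | succ t => right; simp only [Set.mem_singleton_iff]; funext x; simp [thr, cnt]
  | cons g L ih =>
    have h1 := ih (fun g hg => hL g (List.mem_cons_of_mem _ hg))
    have hstep : ∀ i, i < L.length + 1 →
        Der (A ∪ Set.range (thr L)) 2 0 {thr (g :: L) (i + 1)} := by
      intro i _
      have h2 : Der (A ∪ Set.range (thr L)) 1 0 {fun x => g x ∧ thr L i x} :=
        Der.and2 (Or.inl (hL g List.mem_cons_self)) (Or.inr ⟨i, rfl⟩)
      have h3 : Der ((A ∪ Set.range (thr L)) ∪ {fun x => g x ∧ thr L i x}) 1 0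
          {fun x => thr L (i + 1) x ∨ (g x ∧ thr L i x)} :=
        Der.or2 (Or.inl (Or.inr ⟨i + 1, rfl⟩)) (Or.inr rfl)
      have h4 := h2.trans h3
      refine (h4.sub ?_)
      intro f hf
      rw [Set.mem_singleton_iff] at hf ⊢
      rw [hf]
      funext x
      simp only [thr, cnt, eq_iff_iff]
      by_cases hg : g x
      · simp only [hg, if_true, true_and]
        omega
      · simp only [hg, if_false, false_and, or_false]
        omega
    have h5 := Der.family (L.length + 1) (fun i => {thr (g :: L) (i + 1)}) hstep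
    have h6 := h1.trans h5.keep
    refine (h6.sub ?_).weaken ?_ (by simp)
    · rintro f ⟨t, rfl⟩
      cases t with
      | zero =>
        left; right
        refine ⟨0, ?_⟩
        funext x
        simp [thr]
      | succ t =>
        by_cases ht : t < L.length + 1
        · right
          exact ⟨t, ht, rfl⟩
        · left; right
          refine ⟨t + 1, ?_⟩
          funext x
          have h1 := cnt_le L x
          have h2 := cnt_le (g :: L) x
          simp only [List.length_cons] at h2
          simp only [thr, eq_iff_iff]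
          omega
    · simp only [List.length_cons]
      ring_nf
      omega

/-- Inversion of a decreasing sequence of functions. -/
theorem der_invert (R : ℕ) : ∀ {A : Set (BF V)} (g : ℕ → BF V)
    (_ : ∀ j, 1 ≤ j → j < 2 ^ R → g j ∈ A)
    (_ : ∀ j, 1 ≤ j → ∀ x, g (j + 1) x → g j x),
    Der A (4 * 2 ^ R) R {f | ∃ j, 1 ≤ j ∧ j < 2 ^ R ∧ f = fun x => ¬ g j x} := by
  induction R with
  | zero =>
    intro A g _ _
    refine Der.base ?_
    rintro f ⟨j, h1, h2, _⟩
    simp only [pow_zero] at h2
    omega
  | succ R ih =>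
    intro A g hA hg
    have hpow : 2 ^ (R + 1) = 2 ^ R + 2 ^ R := by rw [pow_succ]; omega
    have hpos : 1 ≤ 2 ^ R := Nat.one_le_two_pow
    have hanti : ∀ i j, 1 ≤ i → i ≤ j → ∀ x, g j x → g i x := by
      intro i j hi hij x
      induction j, hij using Nat.le_induction with
      | base => exact id
      | succ j hj ih => exact fun h => ih (hg j (by omega) x h)
    -- the middle function
    have hmid : g (2 ^ R) ∈ A := hA _ hpos (by omega)
    have h1 : Der A 1 1 {fun x => ¬ g (2 ^ R) x} := Der.not1 hmid
    set A₁ : Set (BF V) := A ∪ {fun x => ¬ g (2 ^ R) x} with hA₁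
    let g' : ℕ → BF V := fun j x => g (2 ^ R + j) x ∨ (¬ g (2 ^ R) x ∧ g j x)
    have h2 : Der A₁ ((2 ^ R - 1) * 2) ((2 ^ R - 1) * 0)
        {f | ∃ i, i < 2 ^ R - 1 ∧ f ∈ ({g' (i + 1)} : Set (BF V))} := by
      refine Der.family _ _ ?_
      intro i hi
      have h3 : Der A₁ 1 0 {fun x => (fun x => ¬ g (2 ^ R) x) x ∧ g (i + 1) x} :=
        Der.and2 (Or.inr rfl) (Or.inl (hA _ (by omega) (by omega)))
      have h4 : Der (A₁ ∪ {fun x => (fun x => ¬ g (2 ^ R) x) x ∧ g (i + 1) x}) 1 0
          {fun x => g (2 ^ R + (i + 1)) x ∨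
            (fun x => (fun x => ¬ g (2 ^ R) x) x ∧ g (i + 1) x) x} :=
        Der.or2 (Or.inl (Or.inl (hA _ (by omega) (by omega)))) (Or.inr rfl)
      exact h3.trans h4
    set A₂ : Set (BF V) := A₁ ∪ {f | ∃ i, i < 2 ^ R - 1 ∧ f ∈ ({g' (i + 1)} : Set (BF V))} with hA₂
    have h5 : Der A₂ (4 * 2 ^ R) R {f | ∃ j, 1 ≤ j ∧ j < 2 ^ R ∧ f = fun x => ¬ g' j x} := by
      refine ih g' ?_ ?_
      · intro j h1 h2
        right
        exact ⟨j - 1, by omega, by
          rw [Nat.sub_add_cancel h1]; rfl⟩
      · intro j hj x
        simp only [g']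
        rintro (h | ⟨h, h'⟩)
        · exact Or.inl (hanti (2 ^ R + j) (2 ^ R + (j + 1)) (by omega) (by omega) x h)
        · exact Or.inr ⟨h, hg j hj x h'⟩
    set A₃ : Set (BF V) := A₂ ∪ {f | ∃ j, 1 ≤ j ∧ j < 2 ^ R ∧ f = fun x => ¬ g' j x} with hA₃
    have h6 : Der A₃ ((2 ^ R - 1) * 2) ((2 ^ R - 1) * 0)
        {f | ∃ i, i < 2 ^ R - 1 ∧ f ∈ ({fun x => ¬ g (i + 1) x,
          fun x => ¬ g (2 ^ R + (i + 1)) x} : Set (BF V))} := by
      refine Der.family _ _ ?_
      intro i hi
      have hn : (fun x => ¬ g (2 ^ R) x) ∈ A₃ := Or.inl (Or.inl (Or.inr rfl))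
      have hg' : (fun x => ¬ g' (i + 1) x) ∈ A₃ := Or.inr ⟨i + 1, by omega, by omega, rfl⟩
      have h7 := Der.and2 hn hg'
      have h8 := Der.or2 hn hg'
      refine (h7.union h8).sub ?_
      intro f hf
      rcases hf with rfl | hf
      · left
        rw [Set.mem_singleton_iff]
        funext x
        simp only [g', eq_iff_iff]
        have h9 := hanti (i + 1) (2 ^ R) (by omega) (by omega) x
        have h10 := hanti (2 ^ R) (2 ^ R + (i + 1)) (by omega) (by omega) x
        tauto
      · right
        rw [Set.mem_singleton_iff] at hf ⊢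
        rw [hf]
        funext x
        simp only [g', eq_iff_iff]
        have h9 := hanti (i + 1) (2 ^ R) (by omega) (by omega) x
        have h10 := hanti (2 ^ R) (2 ^ R + (i + 1)) (by omega) (by omega) x
        tauto
    -- assemble
    have h11 := h5.trans h6.keep
    have h12 := h2.trans h11
    have h13 := h1.trans h12
    refine (h13.sub ?_).weaken ?_ (by simp; omega)
    · rintro f ⟨j, hj1, hj2, rfl⟩
      rcases lt_trichotomy j (2 ^ R) with h | h | h
      · right
        refine ⟨j - 1, by omega, ?_⟩
        left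
        rw [Nat.sub_add_cancel hj1]
      · left
        left; left; right
        rw [h]
        rfl
      · right
        refine ⟨j - 2 ^ R - 1, by omega, ?_⟩
        right
        rw [Set.mem_singleton_iff]
        have : 2 ^ R + (j - 2 ^ R - 1 + 1) = j := by omega
        rw [this]
    · omega

end Pool.Agent.NotLimited
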